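import Pool.Agent.Lib.MP_6bc78b_nt.MS.P3.IfaceE

/-! Project MS, Part III, module AAB: bound for the local factors of the correction. -/

set_option autoImplicit false

open Complex Filter Topology ArithmeticFunction

namespace Pool.Agent.Lib.MP_6bc78b_nt.MS.P3

namespace AABH

lemma quad {x y z : ℂ} {r : ℝ} (hr : r ≤ 1) (hx : ‖x‖ ≤ r) (hy : ‖y‖ ≤ r) (hz : ‖z‖ ≤ r) :
    ‖(1 - x) * (1 - y) * (1 - z) - 1 + (x + y + z)‖ ≤ 4 * r ^ 2 := by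
  have hr0 : 0 ≤ r := (norm_nonneg _).trans hx
  have e : (1 - x) * (1 - y) * (1 - z) - 1 + (x + y + z) = x * y + x * z + y * z - x * y * z := by
    ring
  rw [e]
  have h1 : ‖x * y‖ ≤ r * r := by
    rw [norm_mul]; exact mul_le_mul hx hy (norm_nonneg _) hr0
  have h2 : ‖x * z‖ ≤ r * r := by
    rw [norm_mul]; exact mul_le_mul hx hz (norm_nonneg _) hr0
  have h3 : ‖y * z‖ ≤ r * r := by
    rw [norm_mul]; exact mul_le_mul hy hz (norm_nonneg _) hr0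
  have h4 : ‖x * y * z‖ ≤ r * r * r := by
    rw [norm_mul]; exact mul_le_mul h1 hz (norm_nonneg _) (by positivity)
  have h5 := norm_sub_le (x * y + x * z + y * z) (x * y * z)
  have h6 := norm_add_le (x * y + x * z) (y * z)
  have h7 := norm_add_le (x * y) (x * z)
  nlinarith [mul_nonneg hr0 hr0, mul_nonneg (mul_nonneg hr0 hr0) (sub_nonneg.2 hr)]

lemma alg {x y z a b c e : ℂ} {r : ℝ} (hr : r ≤ 1) (hx : ‖x‖ ≤ r) (hy : ‖y‖ ≤ r)
    (hz : ‖z‖ ≤ r) (ha : ‖a‖ ≤ r) (hb : ‖b‖ ≤ r) (hc : ‖c‖ ≤ r) :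
    ‖(1 + (x + y + z) - (a + b + c) - e) * ((1 - x) * (1 - y) * (1 - z)) -
      (1 - a) * (1 - b) * (1 - c)‖ ≤ 50 * r ^ 2 + 8 * ‖e‖ := by
  have hr0 : 0 ≤ r := (norm_nonneg _).trans hx
  have q1 := quad hr hx hy hz
  have q2 := quad hr ha hb hc
  set T := (1 - x) * (1 - y) * (1 - z) with hT
  set D := (1 - a) * (1 - b) * (1 - c) with hD
  set S := x + y + z with hS
  set Q := a + b + c with hQ
  have e1 : (1 + S - Q - e) * T - D = (T - 1 + S) + (S - Q) * (T - 1) - (D - 1 + Q) - e * T := by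
    ring
  have nS : ‖S‖ ≤ 3 * r := by
    have h1 := norm_add_le (x + y) z
    have h2 := norm_add_le x y
    linarith
  have nQ : ‖Q‖ ≤ 3 * r := by
    have h1 := norm_add_le (a + b) c
    have h2 := norm_add_le a b
    linarith
  have nT1 : ‖T - 1‖ ≤ 7 * r := by
    have h1 := norm_sub_le (T - 1 + S) S
    have h2 : T - 1 + S - S = T - 1 := by ring
    rw [h2] at h1
    nlinarith [mul_nonneg hr0 (sub_nonneg.2 hr)]
  have nT : ‖T‖ ≤ 8 := by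
    have h1 := norm_add_le (T - 1) 1
    rw [sub_add_cancel, norm_one] at h1
    linarith
  have nSQ : ‖S - Q‖ ≤ 6 * r := by
    have h1 := norm_sub_le S Q
    linarith
  have n1 : ‖(S - Q) * (T - 1)‖ ≤ 6 * r * (7 * r) := by
    rw [norm_mul]; exact mul_le_mul nSQ nT1 (norm_nonneg _) (by positivity)
  have n2 : ‖e * T‖ ≤ ‖e‖ * 8 := by
    rw [norm_mul]; exact mul_le_mul_of_nonneg_left nT (norm_nonneg _)
  rw [e1]
  have h1 := norm_sub_le ((T - 1 + S) + (S - Q) * (T - 1) - (D - 1 + Q)) (e * T)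
  have h2 := norm_sub_le ((T - 1 + S) + (S - Q) * (T - 1)) (D - 1 + Q)
  have h3 := norm_add_le (T - 1 + S) ((S - Q) * (T - 1))
  nlinarith

lemma den {a b c : ℂ} {r : ℝ} (hr : r ≤ 3 / 4) (ha : ‖a‖ ≤ r) (hb : ‖b‖ ≤ r) (hc : ‖c‖ ≤ r) :
    1 / 64 ≤ ‖(1 - a) * (1 - b) * (1 - c)‖ := by
  have h : ∀ t : ℂ, ‖t‖ ≤ r → 1 / 4 ≤ ‖1 - t‖ := by
    intro t ht
    have := norm_sub_norm_le (1 : ℂ) t
    rw [norm_one] at this
    linarith
  rw [norm_mul, norm_mul]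
  have h1 := h a ha
  have h2 := h b hb
  have h3 := h c hc
  have h4 : 1 / 4 * (1 / 4) ≤ ‖1 - a‖ * ‖1 - b‖ :=
    mul_le_mul h1 h2 (by norm_num) (norm_nonneg _)
  have h5 : 1 / 4 * (1 / 4) * (1 / 4) ≤ ‖1 - a‖ * ‖1 - b‖ * ‖1 - c‖ :=
    mul_le_mul h4 h3 (by norm_num) (by positivity)
  calc (1 : ℝ) / 64 = 1 / 4 * (1 / 4) * (1 / 4) := by norm_num
    _ ≤ _ := h5

lemma norm_pow {p : ℕ} (hp : p.Prime) (z : ℂ) : ‖(p : ℂ) ^ z‖ = (p : ℝ) ^ z.re :=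
  Complex.norm_natCast_cpow_of_pos hp.pos z

lemma norm_pow_le {p : ℕ} (hp : p.Prime) {z : ℂ} {t : ℝ} (h : z.re ≤ t) :
    ‖(p : ℂ) ^ z‖ ≤ (p : ℝ) ^ t := by
  rw [norm_pow hp]
  exact Real.rpow_le_rpow_of_exponent_le (by exact_mod_cast hp.one_lt.le) h

theorem local_bound {C : ℝ} (hC0 : 0 < C)
    (hC : ∀ p : ℕ, p.Prime → ∀ (σ : ℝ) (s w : ℂ) (a : Fin 3 → ℂ),
      7 / 10 ≤ σ → σ ≤ 1 → σ ≤ s.re → (∀ i, σ ≤ (s + a i).re) → σ ≤ (s + w).re →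
      ‖fp p s a w‖ ≤ C * (p : ℝ) ^ (-σ) ∧
      ‖fp p s a w + (p : ℂ)⁻¹ - ∑ i, (p : ℂ) ^ (-s - a i) + (p : ℂ) ^ (-s) +
        (p : ℂ) ^ (-s - w)‖ ≤ C * (p : ℝ) ^ (-(2 * σ)))
    (s v w : ℂ) (a : Fin 3 → ℂ) (h : Reg s v w a) (p : ℕ) (hp : p.Prime) :
    ‖AAp p s v w a - 1‖ ≤ (3200 + 512 * C) * (p : ℝ) ^ (-(3 / 2 : ℝ)) := by
  obtain ⟨hs, ha, hv, hw⟩ := h
  have hs1 : |(s - 1).re| ≤ 1 / 100 := (Complex.abs_re_le_norm _).trans hs
  have ha1 : ∀ i, |(a i).re| ≤ 1 / 100 := fun i => (Complex.abs_re_le_norm _).trans (ha i)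
  rw [Complex.sub_re, Complex.one_re, abs_le] at hs1
  rw [abs_le] at hv hw
  have ha2 : ∀ i, -(1 / 100) ≤ (a i).re ∧ (a i).re ≤ 1 / 100 := fun i => abs_le.1 (ha1 i)
  have hP : (2 : ℝ) ≤ p := by exact_mod_cast hp.two_le
  have hP0 : (0 : ℝ) < p := by linarith
  have hpc : (p : ℂ) ≠ 0 := by exact_mod_cast hp.pos.ne'
  obtain ⟨r, hr⟩ : ∃ r : ℝ, r = (p : ℝ) ^ (-(98 / 100) : ℝ) := ⟨_, rfl⟩
  have hr0 : 0 < r := by rw [hr]; exact Real.rpow_pos_of_pos hP0 _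
  have hr2 : r ^ 2 = (p : ℝ) ^ (-(196 / 100) : ℝ) := by
    rw [hr, ← Real.rpow_natCast, ← Real.rpow_mul hP0.le]
    norm_num
  have hr2' : r ^ 2 ≤ 1 / 2 := by
    rw [hr2]
    calc (p : ℝ) ^ (-(196 / 100) : ℝ) ≤ (p : ℝ) ^ (-1 : ℝ) :=
          Real.rpow_le_rpow_of_exponent_le (by linarith) (by norm_num)
      _ = 1 / p := by rw [Real.rpow_neg_one, one_div]
      _ ≤ 1 / 2 := one_div_le_one_div_of_le (by norm_num) hP
  have hr34 : r ≤ 3 / 4 := by nlinarith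
  have b : ∀ z : ℂ, z.re ≤ -(98 / 100) → ‖(p : ℂ) ^ z‖ ≤ r := fun z hz => by
    rw [hr]; exact norm_pow_le hp hz
  have bx1 : ‖(p : ℂ) ^ (-1 - v)‖ ≤ r := b _ (by simp; linarith [hv.1])
  have bx2 : ‖(p : ℂ) ^ (-1 - v - w)‖ ≤ r := b _ (by simp; linarith [hv.1, hw.1])
  have bx3 : ‖(p : ℂ) ^ (-2 + s - v)‖ ≤ r := b _ (by simp; linarith [hv.1, hs1.2])
  have bq : ∀ i, ‖(p : ℂ) ^ (-1 - v - a i)‖ ≤ r := fun i => b _ (by
    simp; linarith [hv.1, (ha2 i).1])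
  -- the first factor
  obtain ⟨E, hE⟩ : ∃ E : ℂ, E = fp p s a w + (p : ℂ)⁻¹ - ∑ i, (p : ℂ) ^ (-s - a i) +
      (p : ℂ) ^ (-s) + (p : ℂ) ^ (-s - w) := ⟨_, rfl⟩
  have hEb : ‖E‖ ≤ C * (p : ℝ) ^ (-(2 * (98 / 100 : ℝ))) := by
    rw [hE]
    refine (hC p hp (98 / 100) s w a (by norm_num) (by norm_num) (by linarith) ?_ ?_).2
    · intro i
      rw [Complex.add_re]
      linarith [(ha2 i).1]
    · rw [Complex.add_re]
      linarith
  have m1 : (p : ℂ) ^ (s - 1 - v) * (p : ℂ)⁻¹ = (p : ℂ) ^ (-2 + s - v) := by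
    rw [← Complex.cpow_neg_one, ← Complex.cpow_add _ _ hpc]
    congr 1; ring
  have m2 : ∀ i, (p : ℂ) ^ (s - 1 - v) * (p : ℂ) ^ (-s - a i) = (p : ℂ) ^ (-1 - v - a i) := by
    intro i
    rw [← Complex.cpow_add _ _ hpc]
    congr 1; ring
  have m3 : (p : ℂ) ^ (s - 1 - v) * (p : ℂ) ^ (-s) = (p : ℂ) ^ (-1 - v) := by
    rw [← Complex.cpow_add _ _ hpc]
    congr 1; ring
  have m4 : (p : ℂ) ^ (s - 1 - v) * (p : ℂ) ^ (-s - w) = (p : ℂ) ^ (-1 - v - w) := by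
    rw [← Complex.cpow_add _ _ hpc]
    congr 1; ring
  have f1 : 1 - (p : ℂ) ^ (s - 1 - v) * fp p s a w =
      1 + ((p : ℂ) ^ (-1 - v) + (p : ℂ) ^ (-1 - v - w) + (p : ℂ) ^ (-2 + s - v)) -
      ((p : ℂ) ^ (-1 - v - a 0) + (p : ℂ) ^ (-1 - v - a 1) + (p : ℂ) ^ (-1 - v - a 2)) -
      (p : ℂ) ^ (s - 1 - v) * E := by
    rw [← m1, ← m2 0, ← m2 1, ← m2 2, ← m3, ← m4, hE, Fin.sum_univ_three]
    ring
  have he : ‖(p : ℂ) ^ (s - 1 - v) * E‖ ≤ C * (p : ℝ) ^ (-(3 / 2 : ℝ)) := by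
    rw [norm_mul]
    have h1 : ‖(p : ℂ) ^ (s - 1 - v)‖ ≤ (p : ℝ) ^ (2 / 100 : ℝ) :=
      norm_pow_le hp (by simp; linarith [hs1.2, hv.1])
    calc ‖(p : ℂ) ^ (s - 1 - v)‖ * ‖E‖
        ≤ (p : ℝ) ^ (2 / 100 : ℝ) * (C * (p : ℝ) ^ (-(2 * (98 / 100 : ℝ)))) :=
          mul_le_mul h1 hEb (norm_nonneg _) (by positivity)
      _ = C * ((p : ℝ) ^ (2 / 100 : ℝ) * (p : ℝ) ^ (-(2 * (98 / 100 : ℝ)))) := by ring
      _ = C * (p : ℝ) ^ (2 / 100 + -(2 * (98 / 100)) : ℝ) := by rw [Real.rpow_add hP0]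
      _ ≤ C * (p : ℝ) ^ (-(3 / 2 : ℝ)) :=
          mul_le_mul_of_nonneg_left
            (Real.rpow_le_rpow_of_exponent_le (by linarith) (by norm_num)) hC0.le
  have hr2'' : r ^ 2 ≤ (p : ℝ) ^ (-(3 / 2 : ℝ)) := by
    rw [hr2]
    exact Real.rpow_le_rpow_of_exponent_le (by linarith) (by norm_num)
  -- assemble
  have hA := alg (x := (p : ℂ) ^ (-1 - v)) (y := (p : ℂ) ^ (-1 - v - w))
    (z := (p : ℂ) ^ (-2 + s - v)) (e := (p : ℂ) ^ (s - 1 - v) * E)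
    (by linarith) bx1 bx2 bx3 (bq 0) (bq 1) (bq 2)
  have hden := den hr34 (bq 0) (bq 1) (bq 2)
  set D := (1 - (p : ℂ) ^ (-1 - v - a 0)) * (1 - (p : ℂ) ^ (-1 - v - a 1)) *
    (1 - (p : ℂ) ^ (-1 - v - a 2)) with hD
  have hD0 : D ≠ 0 := by
    intro h0
    rw [h0, norm_zero] at hden
    norm_num at hden
  have e2 : AAp p s v w a - 1 = ((1 + ((p : ℂ) ^ (-1 - v) + (p : ℂ) ^ (-1 - v - w) +
      (p : ℂ) ^ (-2 + s - v)) - ((p : ℂ) ^ (-1 - v - a 0) + (p : ℂ) ^ (-1 - v - a 1) +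
      (p : ℂ) ^ (-1 - v - a 2)) - (p : ℂ) ^ (s - 1 - v) * E) *
      ((1 - (p : ℂ) ^ (-1 - v)) * (1 - (p : ℂ) ^ (-1 - v - w)) * (1 - (p : ℂ) ^ (-2 + s - v))) -
      D) / D := by
    unfold AAp
    rw [f1, Fin.prod_univ_three, ← hD, sub_div, div_self hD0]
    congr 2
    ring
  rw [e2, norm_div, div_le_iff₀ (by linarith)]
  refine hA.trans ?_
  have hp32 : 0 < (p : ℝ) ^ (-(3 / 2 : ℝ)) := Real.rpow_pos_of_pos hP0 _
  calc 50 * r ^ 2 + 8 * ‖(p : ℂ) ^ (s - 1 - v) * E‖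
      ≤ (3200 + 512 * C) * (p : ℝ) ^ (-(3 / 2 : ℝ)) * (1 / 64) := by nlinarith
    _ ≤ _ := mul_le_mul_of_nonneg_left hden (by positivity)

end AABH

open AABH in
theorem aab (h : FpbStatement) : AabStatement := by
  obtain ⟨C, hC0, hC⟩ := h
  have hsum : Summable (fun p : Nat.Primes => (3200 + 512 * C) * (p : ℝ) ^ (-(3 / 2 : ℝ))) :=
    (Nat.Primes.summable_rpow.2 (by norm_num)).mul_left _
  obtain ⟨K, hK⟩ : ∃ K : ℝ, K = ∑' p : Nat.Primes,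
    (3200 + 512 * C) * (p : ℝ) ^ (-(3 / 2 : ℝ)) := ⟨_, rfl⟩
  refine ⟨3200 + 512 * C + Real.exp K, by positivity, fun s v w a hreg => ?_⟩
  have hb := fun (p : ℕ) (hp : p.Prime) => local_bound hC0 hC s v w a hreg p hp
  have hsf : Summable (fun p : Nat.Primes => ‖AAp p s v w a - 1‖) :=
    Summable.of_nonneg_of_le (fun _ => norm_nonneg _) (fun p => hb p p.2) hsum
  have hm : Multipliable (fun p : Nat.Primes => 1 + (AAp p s v w a - 1)) :=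
    multipliable_one_add_of_summable hsf
  have hfun : (fun p : Nat.Primes => 1 + (AAp p s v w a - 1)) =
      fun p : Nat.Primes => AAp p s v w a := by
    funext p; ring
  refine ⟨fun p hp => (hb p hp).trans ?_, by rwa [hfun] at hm, ?_⟩
  · refine mul_le_mul_of_nonneg_right ?_ (by positivity)
    linarith [Real.exp_pos K]
  · have ht : Tendsto (fun t : Finset Nat.Primes => ∏ p ∈ t, (1 + (AAp p s v w a - 1))) atTop
        (𝓝 (∏' p : Nat.Primes, (1 + (AAp p s v w a - 1)))) := by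
      simpa [HasProd] using hm.hasProd
    have hle : ‖∏' p : Nat.Primes, (1 + (AAp p s v w a - 1))‖ ≤ Real.exp K := by
      refine le_of_tendsto ht.norm (Eventually.of_forall fun t => ?_)
      have h1 := Finset.norm_prod_one_add_sub_one_le t (fun p : Nat.Primes => AAp p s v w a - 1)
      have h2 : ∑ p ∈ t, ‖AAp p s v w a - 1‖ ≤ K := by
        rw [hK]
        refine (Finset.sum_le_sum (fun (p : Nat.Primes) _ => hb (p : ℕ) p.2)).trans ?_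
        exact hsum.sum_le_tsum t (fun p _ => by positivity)
      have h3 := Real.exp_le_exp.2 h2
      have h4 := norm_add_le (∏ p ∈ t, (1 + (AAp p s v w a - 1)) - 1) 1
      rw [sub_add_cancel, norm_one] at h4
      linarith
    unfold AA
    rw [← hfun]
    have : 0 < 3200 + 512 * C := by positivity
    linarith

end Pool.Agent.Lib.MP_6bc78b_nt.MS.P3
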