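import Pool.Agent.Lib.MP_6bc78b_nt.MS.P3.IfaceE

/-! CID: the `n`-sum for fixed squarefree `m`. -/

set_option autoImplicit false

open Complex Filter Topology ArithmeticFunction

namespace Pool.Agent.Lib.MP_6bc78b_nt.MS.P3

namespace CID

/-- Restriction to the integers coprime to `e`. -/
noncomputable def tw (e : ℕ) (f : ArithmeticFunction ℂ) : ArithmeticFunction ℂ :=
  ⟨fun n => if n.Coprime e then f n else 0, by simp⟩

theorem tw_apply (e : ℕ) (f : ArithmeticFunction ℂ) (n : ℕ) :
    tw e f n = if n.Coprime e then f n else 0 := rfl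

theorem tw_mul (e : ℕ) (f g : ArithmeticFunction ℂ) : tw e (f * g) = tw e f * tw e g := by
  ext n
  rw [tw_apply, mul_apply, mul_apply]
  split_ifs with h
  · apply Finset.sum_congr rfl
    intro x hx
    have hx1 := (Nat.mem_divisorsAntidiagonal.1 hx).1
    have h1 : x.1.Coprime e := Nat.Coprime.coprime_dvd_left ⟨x.2, hx1.symm⟩ h
    have h2 : x.2.Coprime e :=
      Nat.Coprime.coprime_dvd_left ⟨x.1, by rw [mul_comm]; exact hx1.symm⟩ h
    rw [tw_apply, tw_apply, if_pos h1, if_pos h2]
  · symm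
    apply Finset.sum_eq_zero
    intro x hx
    have hx1 := (Nat.mem_divisorsAntidiagonal.1 hx).1
    rw [tw_apply, tw_apply]
    by_cases h1 : x.1.Coprime e
    · by_cases h2 : x.2.Coprime e
      · exact absurd (hx1 ▸ Nat.Coprime.mul_left h1 h2) h
      · rw [if_neg h2, mul_zero]
    · rw [if_neg h1, zero_mul]

theorem pw_apply {a : ℂ} {n : ℕ} (hn : n ≠ 0) : pw a n = (n : ℂ) ^ (-a) := by
  show (if n = 0 then 0 else (n : ℂ) ^ (-a)) = _
  rw [if_neg hn]

theorem muC_apply (n : ℕ) : muC n = ((ArithmeticFunction.moebius n : ℤ) : ℂ) := rfl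

theorem muC_eq : muC = muC.pmul (pw 0) := by
  ext n
  rw [pmul_apply]
  by_cases hn : n = 0
  · subst hn; simp
  · rw [pw_apply hn]; simp

theorem one_char (e : ℕ) [NeZero e] (n : ℕ) :
    (1 : DirichletCharacter ℂ e) (n : ZMod e) = if n.Coprime e then 1 else 0 := by
  split_ifs with h
  · rw [MulChar.one_apply]
    exact (ZMod.isUnit_iff_coprime n e).2 h
  · rw [MulChar.map_nonunit]
    intro h1
    exact h ((ZMod.isUnit_iff_coprime n e).1 h1)

theorem term_pw (e : ℕ) [NeZero e] (a s : ℂ) (n : ℕ) :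
    LSeries.term (fun n => tw e (pw a) n) s n =
      LSeries.term (fun n : ℕ => (1 : DirichletCharacter ℂ e) (n : ZMod e)) (s + a) n := by
  by_cases hn : n = 0
  · subst hn; simp
  · have hn' : (n : ℂ) ≠ 0 := by exact_mod_cast hn
    rw [LSeries.term_of_ne_zero hn, LSeries.term_of_ne_zero hn, one_char, tw_apply, pw_apply hn]
    split_ifs
    · rw [cpow_neg, cpow_add _ _ hn', one_div, mul_inv, mul_comm, div_eq_mul_inv, mul_comm]
    · simp

theorem term_mu (e : ℕ) [NeZero e] (w s : ℂ) (n : ℕ) :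
    LSeries.term (fun n => tw e (muC.pmul (pw w)) n) s n =
      LSeries.term (fun n : ℕ => (1 : DirichletCharacter ℂ e) (n : ZMod e) *
        ((ArithmeticFunction.moebius n : ℤ) : ℂ)) (s + w) n := by
  by_cases hn : n = 0
  · subst hn; simp
  · have hn' : (n : ℂ) ≠ 0 := by exact_mod_cast hn
    rw [LSeries.term_of_ne_zero hn, LSeries.term_of_ne_zero hn, one_char, tw_apply, pmul_apply,
      pw_apply hn, muC_apply]
    split_ifs
    · rw [cpow_neg, cpow_add _ _ hn', div_eq_mul_inv, div_eq_mul_inv, mul_inv]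
      ring
    · simp

theorem ls_pw (e : ℕ) [NeZero e] {a s : ℂ} (h : 1 < (s + a).re) :
    LSeriesSummable (fun n => tw e (pw a) n) s ∧
      LSeries (fun n => tw e (pw a) n) s =
        (∏ p ∈ e.primeFactors, (1 - (p : ℂ) ^ (-(s + a)))) * riemannZeta (s + a) := by
  have h1 := DirichletCharacter.LSeriesSummable_of_one_lt_re (1 : DirichletCharacter ℂ e) h
  have h2 := DirichletCharacter.LFunction_eq_LSeries (1 : DirichletCharacter ℂ e) h
  have h3 : (s + a) ≠ 1 := by
    intro h4
    rw [h4] at h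
    simp at h
  have h4 := DirichletCharacter.LFunctionTrivChar_eq_mul_riemannZeta (N := e) h3
  constructor
  · unfold LSeriesSummable
    exact (summable_congr (term_pw e a s)).2 h1
  · rw [← h4]
    show _ = DirichletCharacter.LFunction (1 : DirichletCharacter ℂ e) (s + a)
    rw [h2]
    unfold LSeries
    exact tsum_congr (term_pw e a s)

theorem ls_mu (e : ℕ) [NeZero e] {w s : ℂ} (h : 1 < (s + w).re) :
    LSeriesSummable (fun n => tw e (muC.pmul (pw w)) n) s ∧
      LSeries (fun n => tw e (muC.pmul (pw w)) n) s =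
        ((∏ p ∈ e.primeFactors, (1 - (p : ℂ) ^ (-(s + w)))) * riemannZeta (s + w))⁻¹ := by
  have h1 := DirichletCharacter.LSeries.mul_mu_eq_one (1 : DirichletCharacter ℂ e) h
  have h2 := DirichletCharacter.LFunction_eq_LSeries (1 : DirichletCharacter ℂ e) h
  have h3 : (s + w) ≠ 1 := by
    intro h4
    rw [h4] at h
    simp at h
  have h4 := DirichletCharacter.LFunctionTrivChar_eq_mul_riemannZeta (N := e) h3
  have h5 := DirichletCharacter.LSeriesSummable_mul (1 : DirichletCharacter ℂ e)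
    (ArithmeticFunction.LSeriesSummable_moebius_iff.2 h)
  constructor
  · unfold LSeriesSummable
    exact (summable_congr (term_mu e w s)).2 h5
  · rw [← h4]
    symm
    rw [inv_eq_iff_eq_inv, eq_comm]
    symm
    have h6 : DirichletCharacter.LFunctionTrivChar e (s + w) =
      LSeries (fun n : ℕ => (1 : DirichletCharacter ℂ e) (n : ZMod e)) (s + w) := h2
    rw [h6]
    have h7 : LSeries (fun n => tw e (muC.pmul (pw w)) n) s =
        LSeries (fun n : ℕ => (1 : DirichletCharacter ℂ e) (n : ZMod e) *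
        ((ArithmeticFunction.moebius n : ℤ) : ℂ)) (s + w) := by
      unfold LSeries
      exact tsum_congr (term_mu e w s)
    rw [h7]
    exact eq_inv_of_mul_eq_one_left h1

/-- The `L`-series of `hh`, restricted to the integers coprime to `e`. -/
theorem ls_hh (e : ℕ) [NeZero e] (a : Fin 3 → ℂ) {w s : ℂ} (hs : 1 < s.re)
    (hw : 1 < (s + w).re) (ha : ∀ i, 1 < (s + a i).re) :
    LSeriesSummable (fun n => tw e (hh a w) n) s ∧
      LSeries (fun n => tw e (hh a w) n) s =
        Hz s a w * ∏ p ∈ e.primeFactors, hL p s a w := by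
  obtain ⟨s0, v0⟩ := ls_pw e (ha 0)
  obtain ⟨s1, v1⟩ := ls_pw e (ha 1)
  obtain ⟨s2, v2⟩ := ls_pw e (ha 2)
  have hs' : 1 < (s + 0).re := by simpa using hs
  obtain ⟨s3, v3⟩ := ls_mu e hs'
  obtain ⟨s4, v4⟩ := ls_mu e hw
  rw [← muC_eq] at s3 v3
  have e1 : tw e (hh a w) = tw e (pw (a 0)) * tw e (pw (a 1)) * tw e (pw (a 2)) * tw e muC *
      tw e (muC.pmul (pw w)) := by
    unfold hh
    rw [tw_mul, tw_mul, tw_mul, tw_mul]
  have t1 := LSeriesSummable_mul s0 s1
  have t2 := LSeriesSummable_mul t1 s2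
  have t3 := LSeriesSummable_mul t2 s3
  have t4 := LSeriesSummable_mul t3 s4
  rw [e1]
  refine ⟨t4, ?_⟩
  have u1 := LSeries_mul' s0 s1
  have u2 := LSeries_mul' t1 s2
  have u3 := LSeries_mul' t2 s3
  have u4 := LSeries_mul' t3 s4
  rw [u4, u3, u2, u1, v0, v1, v2, v3, v4]
  unfold Hz hL
  rw [Finset.prod_div_distrib, Finset.prod_mul_distrib, Finset.prod_comm]
  simp only [Fin.prod_univ_three, add_zero, neg_add, ← sub_eq_add_neg]
  field_simp

theorem prod_ind {n e : ℕ} (he : e ≠ 0) :
    (∏ p ∈ e.primeFactors, (if p ∣ n then (0 : ℂ) else 1)) = if n.Coprime e then 1 else 0 := by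
  split_ifs with h
  · apply Finset.prod_eq_one
    intro p hp
    rw [if_neg]
    intro h1
    have hpp := Nat.prime_of_mem_primeFactors hp
    have h2 := Nat.dvd_gcd h1 (Nat.dvd_of_mem_primeFactors hp)
    rw [h] at h2
    exact hpp.one_lt.ne' (Nat.dvd_one.1 h2)
  · obtain ⟨p, hp, h1, h2⟩ := Nat.Prime.not_coprime_iff_dvd.1 h
    exact Finset.prod_eq_zero (Nat.mem_primeFactors.2 ⟨hp, h2, he⟩) (if_pos h1)

theorem totient_sqf {e : ℕ} (he : Squarefree e) :
    (e.totient : ℂ) = ∏ p ∈ e.primeFactors, ((p : ℂ) - 1) := by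
  have h1 := Nat.totient_eq_div_primeFactors_mul e
  rw [Nat.prod_primeFactors_of_squarefree he, Nat.div_self (Nat.pos_of_ne_zero he.ne_zero),
    one_mul] at h1
  rw [h1]
  push_cast
  apply Finset.prod_congr rfl
  intro p hp
  have := (Nat.prime_of_mem_primeFactors hp).one_le
  push_cast [this]
  ring

theorem sum_div {m : ℕ} (hm : Squarefree m) (g : ℕ → ℂ) :
    ∑ e ∈ m.divisors, ((ArithmeticFunction.moebius e : ℤ) : ℂ) * ((e : ℂ) * ((m / e).totient : ℂ)) *
      ∏ p ∈ e.primeFactors, g p =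
    (m.totient : ℂ) * ∏ p ∈ m.primeFactors, (1 - ((p : ℂ) / ((p : ℂ) - 1)) * g p) := by
  set F : ArithmeticFunction ℂ :=
    prodPrimeFactors (fun p => ((p : ℂ) / ((p : ℂ) - 1)) * g p) with hF
  have h1 := IsMultiplicative.prodPrimeFactors_one_sub_of_squarefree F
    (IsMultiplicative.prodPrimeFactors _) hm
  have h2 : ∏ p ∈ m.primeFactors, (1 - ((p : ℂ) / ((p : ℂ) - 1)) * g p) =
      ∏ p ∈ m.primeFactors, (1 - F p) := by
    apply Finset.prod_congr rfl
    intro p hp
    have hpp := Nat.prime_of_mem_primeFactors hp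
    rw [hF, prodPrimeFactors_apply hpp.ne_zero, hpp.primeFactors, Finset.prod_singleton]
  rw [h2, h1, Finset.mul_sum]
  apply Finset.sum_congr rfl
  intro e he
  have hem := Nat.dvd_of_mem_divisors he
  obtain ⟨k, rfl⟩ := hem
  have hek : e.Coprime k := Nat.coprime_of_squarefree_mul hm
  have hes : Squarefree e := hm.squarefree_of_dvd ⟨k, rfl⟩
  have he0 : e ≠ 0 := hes.ne_zero
  rw [Nat.mul_div_cancel_left k (Nat.pos_of_ne_zero he0), Nat.totient_mul hek]
  rw [hF, prodPrimeFactors_apply he0, Finset.prod_mul_distrib, Finset.prod_div_distrib]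
  push_cast
  rw [totient_sqf hes]
  have h3 : ∏ p ∈ e.primeFactors, (p : ℂ) = e := by
    rw [← Nat.cast_prod, Nat.prod_primeFactors_of_squarefree hes]
  rw [h3]
  have h4 : ∏ p ∈ e.primeFactors, ((p : ℂ) - 1) ≠ 0 := by
    rw [Finset.prod_ne_zero_iff]
    intro p hp h5
    have hpp := Nat.prime_of_mem_primeFactors hp
    have h6 : (p : ℂ) = 1 := by linear_combination h5
    exact hpp.one_lt.ne' (by exact_mod_cast h6)
  field_simp

theorem ramC_prod {m : ℕ} (hm : Squarefree m) (n : ℕ) :
    (ramC m n : ℂ) = ∏ p ∈ m.primeFactors, ((if p ∣ n then (p : ℂ) else 0) - 1) := by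
  have hm0 := hm.ne_zero
  set F : ArithmeticFunction ℂ :=
    prodPrimeFactors (fun p => if p ∣ n then (p : ℂ) else 0) with hF
  have h1 := IsMultiplicative.prodPrimeFactors_one_sub_of_squarefree F
    (IsMultiplicative.prodPrimeFactors _) hm
  have h2 : ∏ p ∈ m.primeFactors, ((if p ∣ n then (p : ℂ) else 0) - 1) =
      ((ArithmeticFunction.moebius m : ℤ) : ℂ) * ∏ p ∈ m.primeFactors, (1 - F p) := by
    have h3 : ((ArithmeticFunction.moebius m : ℤ) : ℂ) = ∏ p ∈ m.primeFactors, (-1 : ℂ) := by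
      rw [Finset.prod_const, ArithmeticFunction.moebius_apply_of_squarefree hm,
        (ArithmeticFunction.cardDistinctFactors_eq_cardFactors_iff_squarefree hm0).2 hm |>.symm]
      push_cast
      rfl
    rw [h3, ← Finset.prod_mul_distrib]
    apply Finset.prod_congr rfl
    intro p hp
    have hpp := Nat.prime_of_mem_primeFactors hp
    rw [hF, prodPrimeFactors_apply hpp.ne_zero, hpp.primeFactors, Finset.prod_singleton]
    ring
  rw [h2, h1, Finset.mul_sum]
  unfold ramC
  push_cast
  have h4 : ∀ d ∈ m.divisors, F d = if d ∣ n then (d : ℂ) else 0 := by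
    intro d hd
    have hdm := Nat.dvd_of_mem_divisors hd
    have hds : Squarefree d := hm.squarefree_of_dvd hdm
    rw [hF, prodPrimeFactors_apply hds.ne_zero]
    split_ifs with h
    · have h5 : ∏ p ∈ d.primeFactors, (p : ℂ) = d := by
        rw [← Nat.cast_prod, Nat.prod_primeFactors_of_squarefree hds]
      rw [← h5]
      apply Finset.prod_congr rfl
      intro p hp
      rw [if_pos ((Nat.dvd_of_mem_primeFactors hp).trans h)]
    · have h6 : ∃ p ∈ d.primeFactors, ¬ p ∣ n := by
        by_contra h7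
        push Not at h7
        apply h
        rw [← Nat.prod_primeFactors_of_squarefree hds]
        exact Finset.prod_primes_dvd n (fun p hp => (Nat.prime_of_mem_primeFactors hp).prime) h7
      obtain ⟨p, hp, hpn⟩ := h6
      exact Finset.prod_eq_zero hp (if_neg hpn)
  have h5 : (Nat.gcd m n).divisors = m.divisors.filter (· ∣ n) := by
    ext d
    rw [Finset.mem_filter, Nat.mem_divisors, Nat.mem_divisors, Nat.dvd_gcd_iff]
    constructor
    · rintro ⟨⟨h6, h7⟩, _⟩
      exact ⟨⟨h6, hm0⟩, h7⟩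
    · rintro ⟨⟨h6, _⟩, h7⟩
      exact ⟨⟨h6, h7⟩, Nat.gcd_ne_zero_left hm0⟩
  rw [h5, Finset.sum_filter]
  apply Finset.sum_congr rfl
  intro d hd
  rw [h4 d hd]
  split_ifs with h
  · have hdm := Nat.dvd_of_mem_divisors hd
    obtain ⟨k, hk⟩ := hdm
    have hds : Squarefree d := hm.squarefree_of_dvd ⟨k, hk⟩
    have hd0 := hds.ne_zero
    have h6 : m / d = k := by rw [hk, Nat.mul_div_cancel_left k (Nat.pos_of_ne_zero hd0)]
    have hek : d.Coprime k := Nat.coprime_of_squarefree_mul (hk ▸ hm)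
    rw [h6]
    have h7 : ArithmeticFunction.moebius m =
        ArithmeticFunction.moebius d * ArithmeticFunction.moebius k := by
      rw [hk, isMultiplicative_moebius.map_mul_of_coprime hek]
    have h8 : ArithmeticFunction.moebius d * ArithmeticFunction.moebius d = 1 := by
      rcases ArithmeticFunction.moebius_ne_zero_iff_eq_or.1
        (ArithmeticFunction.moebius_ne_zero_iff_squarefree.2 hds) with h9 | h9 <;> rw [h9] <;> rfl
    have h8' : ((ArithmeticFunction.moebius d : ℤ) : ℂ) * ((ArithmeticFunction.moebius d : ℤ) : ℂ)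
        = 1 := by exact_mod_cast h8
    rw [h7]
    push_cast
    linear_combination (-(d : ℂ) * ((ArithmeticFunction.moebius k : ℤ) : ℂ)) * h8'
  · ring

theorem ramC_eq {m : ℕ} (hm : Squarefree m) (n : ℕ) :
    (ramC m n : ℂ) = ∑ e ∈ m.divisors, ((ArithmeticFunction.moebius e : ℤ) : ℂ) *
      ((e : ℂ) * ((m / e).totient : ℂ)) * (if n.Coprime e then 1 else 0) := by
  have h1 := sum_div hm (fun p => if p ∣ n then (0 : ℂ) else 1)
  have h2 : ∀ e ∈ m.divisors, ((ArithmeticFunction.moebius e : ℤ) : ℂ) *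
      ((e : ℂ) * ((m / e).totient : ℂ)) * (if n.Coprime e then 1 else 0) =
      ((ArithmeticFunction.moebius e : ℤ) : ℂ) * ((e : ℂ) * ((m / e).totient : ℂ)) *
      ∏ p ∈ e.primeFactors, (if p ∣ n then (0 : ℂ) else 1) := by
    intro e he
    rw [prod_ind (Nat.pos_of_mem_divisors he).ne']
  rw [Finset.sum_congr rfl h2, h1, ramC_prod hm, totient_sqf hm, ← Finset.prod_mul_distrib]
  apply Finset.prod_congr rfl
  intro p hp
  have hpp := Nat.prime_of_mem_primeFactors hp
  have h3 : (p : ℂ) - 1 ≠ 0 := by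
    intro h5
    have h6 : (p : ℂ) = 1 := by linear_combination h5
    exact hpp.one_lt.ne' (by exact_mod_cast h6)
  split_ifs
  · ring
  · field_simp
    ring

end CID

open CID in
/-- CID. -/
theorem cid : CidStatement := by
  intro m hm a w s hs hw ha
  have key : ∀ n : ℕ, hh a w n * (ramC m n : ℂ) * (n : ℂ) ^ (-s) =
      ∑ e ∈ m.divisors, ((ArithmeticFunction.moebius e : ℤ) : ℂ) *
      ((e : ℂ) * ((m / e).totient : ℂ)) * LSeries.term (fun n => tw e (hh a w) n) s n := by
    intro n
    by_cases hn : n = 0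
    · subst hn; simp
    · rw [ramC_eq hm, Finset.mul_sum, Finset.sum_mul]
      apply Finset.sum_congr rfl
      intro e he
      rw [LSeries.term_of_ne_zero hn, tw_apply, cpow_neg]
      split_ifs
      · ring
      · ring
  have hsum : ∀ e ∈ m.divisors, Summable (fun n : ℕ => ((ArithmeticFunction.moebius e : ℤ) : ℂ) *
      ((e : ℂ) * ((m / e).totient : ℂ)) * LSeries.term (fun n => tw e (hh a w) n) s n) := by
    intro e he
    have : NeZero e := ⟨(Nat.pos_of_mem_divisors he).ne'⟩
    exact (ls_hh e a hs hw ha).1.mul_left _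
  constructor
  · have h1 : Summable (fun n : ℕ => hh a w n * (ramC m n : ℂ) * (n : ℂ) ^ (-s)) := by
      rw [funext key]
      exact summable_sum hsum
    exact h1.norm
  · rw [tsum_congr key, Summable.tsum_finsetSum hsum]
    have h2 : ∀ e ∈ m.divisors, ∑' n : ℕ, ((ArithmeticFunction.moebius e : ℤ) : ℂ) *
        ((e : ℂ) * ((m / e).totient : ℂ)) * LSeries.term (fun n => tw e (hh a w) n) s n =
        Hz s a w * (((ArithmeticFunction.moebius e : ℤ) : ℂ) *
        ((e : ℂ) * ((m / e).totient : ℂ)) * ∏ p ∈ e.primeFactors, hL p s a w) := by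
      intro e he
      have : NeZero e := ⟨(Nat.pos_of_mem_divisors he).ne'⟩
      rw [tsum_mul_left]
      have h3 := (ls_hh e a hs hw ha).2
      unfold LSeries at h3
      rw [h3]
      ring
    rw [Finset.sum_congr rfl h2, ← Finset.mul_sum, sum_div hm]
    unfold fm fp
    ring

end Pool.Agent.Lib.MP_6bc78b_nt.MS.P3
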