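import Pool.Agent.Lib.MP_6bc78b_nt.MS.P3.IfaceE

/-!
Project MS (MP_6bc78b_nt), Part III, module FPB: size of the local factors.
-/

set_option autoImplicit false

open Complex Filter Topology ArithmeticFunction

namespace Pool.Agent.Lib.MP_6bc78b_nt.MS.P3

namespace FpbAux

/-- the algebraic core -/
theorem core {u x y P Q R : ℂ} {r : ℝ} (hr : r ≤ 0.62) (hu : ‖u‖ ≤ r) (hx : ‖x‖ ≤ r)
    (hy : ‖y‖ ≤ r) (hP : ‖P‖ ≤ r) (hQ : ‖Q‖ ≤ r) (hR : ‖R‖ ≤ r) :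
    ‖1 - (1 - P) * (1 - Q) * (1 - R) / ((1 - u) * (1 - x) * (1 - y)) + u - (P + Q + R) + x + y‖
      ≤ 1000 * r ^ 2 := by
  have hr0 : 0 ≤ r := (norm_nonneg u).trans hu
  have low : ∀ z : ℂ, ‖z‖ ≤ r → 0.38 ≤ ‖1 - z‖ := by
    intro z hz
    have h := norm_sub_norm_le (1 : ℂ) z
    rw [norm_one] at h
    linarith
  have hu1 := low u hu
  have hx1 := low x hx
  have hy1 := low y hy
  obtain ⟨D, hD⟩ : ∃ D, D = (1 - u) * (1 - x) * (1 - y) := ⟨_, rfl⟩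
  have hDn : 0.05 ≤ ‖D‖ := by
    rw [hD, norm_mul, norm_mul]
    have h1 : (0.38 : ℝ) * 0.38 ≤ ‖1 - u‖ * ‖1 - x‖ :=
      mul_le_mul hu1 hx1 (by norm_num) (norm_nonneg _)
    have h2 : (0.38 : ℝ) * 0.38 * 0.38 ≤ ‖1 - u‖ * ‖1 - x‖ * ‖1 - y‖ :=
      mul_le_mul h1 hy1 (by norm_num) (by positivity)
    linarith
  have hD0 : D ≠ 0 := by
    intro h
    rw [h, norm_zero] at hDn
    linarith
  obtain ⟨E, hE⟩ : ∃ E, E = 1 - (1 - P) * (1 - Q) * (1 - R) / D + u - (P + Q + R) + x + y :=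
    ⟨_, rfl⟩
  obtain ⟨D2, hD2⟩ : ∃ D2, D2 = u * x + u * y + x * y - u * x * y := ⟨_, rfl⟩
  obtain ⟨B2, hB2⟩ : ∃ B2, B2 = P * Q + P * R + Q * R - P * Q * R := ⟨_, rfl⟩
  have hid : E * D = (D2 - (u + x + y)) * ((u + x + y) - (P + Q + R)) + D2 - B2 := by
    have h1 : E * D = D - (1 - P) * (1 - Q) * (1 - R) + (u + x + y - (P + Q + R)) * D := by
      rw [hE]
      field_simp
      ring
    rw [h1, hD, hD2, hB2]
    ring
  have b2 : ∀ z w : ℂ, ‖z‖ ≤ r → ‖w‖ ≤ r → ‖z * w‖ ≤ r ^ 2 := by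
    intro z w hz hw
    rw [norm_mul, pow_two]
    exact mul_le_mul hz hw (norm_nonneg _) hr0
  have b3 : ∀ z w v : ℂ, ‖z‖ ≤ r → ‖w‖ ≤ r → ‖v‖ ≤ r → ‖z * w * v‖ ≤ r ^ 2 := by
    intro z w v hz hw hv
    rw [norm_mul]
    have h1 := b2 z w hz hw
    have h2 : ‖v‖ ≤ 1 := by linarith
    calc ‖z * w‖ * ‖v‖ ≤ ‖z * w‖ * 1 := mul_le_mul_of_nonneg_left h2 (norm_nonneg _)
      _ ≤ r ^ 2 := by rw [mul_one]; exact h1
  have four : ∀ z w v : ℂ, ‖z‖ ≤ r → ‖w‖ ≤ r → ‖v‖ ≤ r →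
      ‖z * w + z * v + w * v - z * w * v‖ ≤ 4 * r ^ 2 := by
    intro z w v hz hw hv
    have h1 := norm_sub_le (z * w + z * v + w * v) (z * w * v)
    have h2 := norm_add₃_le (a := z * w) (b := z * v) (c := w * v)
    have h3 := b2 z w hz hw
    have h4 := b2 z v hz hv
    have h5 := b2 w v hw hv
    have h6 := b3 z w v hz hw hv
    linarith
  have hD2n : ‖D2‖ ≤ 4 * r ^ 2 := by rw [hD2]; exact four u x y hu hx hy
  have hB2n : ‖B2‖ ≤ 4 * r ^ 2 := by rw [hB2]; exact four P Q R hP hQ hR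
  have hA : ‖u + x + y‖ ≤ 3 * r := by
    have h2 := norm_add₃_le (a := u) (b := x) (c := y)
    linarith
  have hB : ‖P + Q + R‖ ≤ 3 * r := by
    have h2 := norm_add₃_le (a := P) (b := Q) (c := R)
    linarith
  have hrr : r ^ 2 ≤ r := by nlinarith
  have h1 : ‖D2 - (u + x + y)‖ ≤ 7 * r := by
    have := norm_sub_le D2 (u + x + y)
    linarith
  have h2 : ‖(u + x + y) - (P + Q + R)‖ ≤ 6 * r := by
    have := norm_sub_le (u + x + y) (P + Q + R)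
    linarith
  have h3 : ‖(D2 - (u + x + y)) * ((u + x + y) - (P + Q + R))‖ ≤ 42 * r ^ 2 := by
    rw [norm_mul]
    calc _ ≤ (7 * r) * (6 * r) := mul_le_mul h1 h2 (norm_nonneg _) (by positivity)
      _ = 42 * r ^ 2 := by ring
  have h4 : ‖E * D‖ ≤ 50 * r ^ 2 := by
    rw [hid]
    have h5 := norm_sub_le ((D2 - (u + x + y)) * ((u + x + y) - (P + Q + R)) + D2) B2
    have h6 := norm_add_le ((D2 - (u + x + y)) * ((u + x + y) - (P + Q + R))) D2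
    linarith
  rw [← hD, ← hE]
  rw [norm_mul] at h4
  have h5 : ‖E‖ * 0.05 ≤ ‖E‖ * ‖D‖ := mul_le_mul_of_nonneg_left hDn (norm_nonneg _)
  linarith

/-- `2^(-σ) ≤ 0.62` -/
theorem two_pow {σ : ℝ} (h : 7 / 10 ≤ σ) : (2 : ℝ) ^ (-σ) ≤ 0.62 := by
  have h1 : (2 : ℝ) ^ (-σ) ≤ (2 : ℝ) ^ (-(7 / 10) : ℝ) :=
    Real.rpow_le_rpow_of_exponent_le (by norm_num) (by linarith)
  refine h1.trans ?_
  have h2 : ((2 : ℝ) ^ (-(7 / 10) : ℝ)) ^ (10 : ℕ) ≤ (0.62 : ℝ) ^ (10 : ℕ) := by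
    rw [← Real.rpow_natCast, ← Real.rpow_mul (by norm_num)]
    have e : (-(7 / 10) : ℝ) * ((10 : ℕ) : ℝ) = ((-7 : ℤ) : ℝ) := by norm_num
    rw [e, Real.rpow_intCast]
    norm_num
  exact le_of_pow_le_pow_left₀ (by norm_num) (by norm_num) h2

end FpbAux

theorem fpb : FpbStatement := by
  refine ⟨1000, by norm_num, ?_⟩
  intro p hp σ s w a hσ hσ1 hs ha hw
  have hp2 : (2 : ℝ) ≤ p := by exact_mod_cast hp.two_le
  have hp0 : (0 : ℝ) < p := by linarith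
  have hpN : 0 < p := hp.pos
  obtain ⟨r, hr⟩ : ∃ r : ℝ, r = (p : ℝ) ^ (-σ) := ⟨_, rfl⟩
  have hr0 : 0 < r := by rw [hr]; positivity
  have hr1 : r ≤ 0.62 := by
    have h1 : (p : ℝ) ^ (-σ) ≤ (2 : ℝ) ^ (-σ) :=
      Real.rpow_le_rpow_of_nonpos (by norm_num) hp2 (by linarith)
    rw [hr]
    exact h1.trans (FpbAux.two_pow hσ)
  have key : ∀ z : ℂ, z.re ≤ -σ → ‖(p : ℂ) ^ z‖ ≤ r := by
    intro z hz
    rw [Complex.norm_natCast_cpow_of_pos hpN, hr]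
    exact Real.rpow_le_rpow_of_exponent_le (by linarith) hz
  have hx : ‖(p : ℂ) ^ (-s)‖ ≤ r := key _ (by rw [neg_re]; linarith)
  have hy : ‖(p : ℂ) ^ (-s - w)‖ ≤ r := key _ (by
    rw [sub_re, neg_re]; rw [add_re] at hw; linarith)
  have hP : ∀ i, ‖(p : ℂ) ^ (-s - a i)‖ ≤ r := fun i => key _ (by
    have := ha i
    rw [add_re] at this
    rw [sub_re, neg_re]; linarith)
  have hu : ‖((p : ℂ))⁻¹‖ ≤ r := by
    rw [norm_inv, Complex.norm_natCast, hr, ← Real.rpow_neg_one]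
    exact Real.rpow_le_rpow_of_exponent_le (by linarith) (by linarith)
  have hcore := FpbAux.core hr1 hu hx hy (hP 0) (hP 1) (hP 2)
  have hpC : (p : ℂ) ≠ 0 := by exact_mod_cast hpN.ne'
  have hpC1 : (p : ℂ) - 1 ≠ 0 := by
    intro h
    have h1 : (p : ℂ) = 1 := by linear_combination h
    have h2 : p = 1 := by exact_mod_cast h1
    exact hp.one_lt.ne' h2
  have hfrac : (p : ℂ) / ((p : ℂ) - 1) = 1 / (1 - ((p : ℂ))⁻¹) := by
    field_simp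
  have hfp : fp p s a w = 1 - (1 - (p : ℂ) ^ (-s - a 0)) * (1 - (p : ℂ) ^ (-s - a 1)) *
      (1 - (p : ℂ) ^ (-s - a 2)) / ((1 - ((p : ℂ))⁻¹) * (1 - (p : ℂ) ^ (-s)) *
        (1 - (p : ℂ) ^ (-s - w))) := by
    unfold fp hL
    rw [hfrac, Fin.prod_univ_three, div_mul_div_comm, one_mul, mul_assoc (1 - ((p : ℂ))⁻¹)]
  have h2 : ‖fp p s a w + (p : ℂ)⁻¹ - ∑ i, (p : ℂ) ^ (-s - a i) + (p : ℂ) ^ (-s) +
      (p : ℂ) ^ (-s - w)‖ ≤ 1000 * r ^ 2 := by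
    rw [hfp, Fin.sum_univ_three]
    exact hcore
  have hr2 : (p : ℝ) ^ (-(2 * σ)) = r ^ 2 := by
    rw [hr, ← Real.rpow_natCast, ← Real.rpow_mul hp0.le]
    congr 1
    push_cast
    ring
  refine ⟨?_, by rw [hr2]; exact h2⟩
  rw [← hr]
  have h3 : fp p s a w = (fp p s a w + (p : ℂ)⁻¹ - ∑ i, (p : ℂ) ^ (-s - a i) + (p : ℂ) ^ (-s) +
      (p : ℂ) ^ (-s - w)) - (((p : ℂ)⁻¹ + (p : ℂ) ^ (-s) + (p : ℂ) ^ (-s - w)) -
        ∑ i, (p : ℂ) ^ (-s - a i)) := by ring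
  rw [h3]
  refine (norm_sub_le _ _).trans ?_
  have h4 := norm_sub_le ((p : ℂ)⁻¹ + (p : ℂ) ^ (-s) + (p : ℂ) ^ (-s - w))
    (∑ i, (p : ℂ) ^ (-s - a i))
  have h5 := norm_add₃_le (a := (p : ℂ)⁻¹) (b := (p : ℂ) ^ (-s)) (c := (p : ℂ) ^ (-s - w))
  have h6 : ‖∑ i, (p : ℂ) ^ (-s - a i)‖ ≤ 3 * r := by
    refine (norm_sum_le _ _).trans ?_
    rw [Fin.sum_univ_three]
    have := hP 0
    have := hP 1
    have := hP 2
    linarith
  have h7 : r ^ 2 ≤ 0.62 * r := by nlinarith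
  linarith

end Pool.Agent.Lib.MP_6bc78b_nt.MS.P3
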