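import Pool.Agent.Lib.MP_6bc78b_nt.MS.Defs

/-! Project MS (MP_6bc78b_nt), Part III (LVV): the twisted Euler product and bounds for zeta.
Definitions and statements; proofs in PaperE.md. -/

set_option autoImplicit false

open Complex Filter Topology ArithmeticFunction

namespace Pool.Agent.Lib.MP_6bc78b_nt.MS.P3

/-- `n^(-a)`, as an arithmetic function. -/
noncomputable def pw (a : ℂ) : ArithmeticFunction ℂ :=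
  ⟨fun n => if n = 0 then 0 else (n : ℂ) ^ (-a), by simp⟩

/-- `μ`, with complex values. -/
noncomputable def muC : ArithmeticFunction ℂ :=
  ((ArithmeticFunction.moebius : ArithmeticFunction ℤ) : ArithmeticFunction ℂ)

/-- `n^(-a0) * n^(-a1) * n^(-a2) * μ(n) * (μ(n) n^(-w))` (Dirichlet convolution). -/
noncomputable def hh (a : Fin 3 → ℂ) (w : ℂ) : ArithmeticFunction ℂ :=
  pw (a 0) * pw (a 1) * pw (a 2) * muC * (muC.pmul (pw w))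

/-- `∏ (1 - p^(-s-a_i)) / ((1 - p^(-s)) (1 - p^(-s-w)))`. -/
noncomputable def hL (p : ℕ) (s : ℂ) (a : Fin 3 → ℂ) (w : ℂ) : ℂ :=
  (∏ i, (1 - (p : ℂ) ^ (-s - a i))) / ((1 - (p : ℂ) ^ (-s)) * (1 - (p : ℂ) ^ (-s - w)))

/-- `∏ ζ(s+a_i) / (ζ(s) ζ(s+w))`. -/
noncomputable def Hz (s : ℂ) (a : Fin 3 → ℂ) (w : ℂ) : ℂ :=
  (∏ i, riemannZeta (s + a i)) / (riemannZeta s * riemannZeta (s + w))

/-- `1 - (p/(p-1)) hL`. -/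
noncomputable def fp (p : ℕ) (s : ℂ) (a : Fin 3 → ℂ) (w : ℂ) : ℂ :=
  1 - ((p : ℂ) / ((p : ℂ) - 1)) * hL p s a w

/-- `∏_{p | m} fp`. -/
noncomputable def fm (m : ℕ) (s : ℂ) (a : Fin 3 → ℂ) (w : ℂ) : ℂ :=
  ∏ p ∈ m.primeFactors, fp p s a w

/-- The terms of the `m`-sum. -/
noncomputable def smt (m : ℕ) (s v w : ℂ) (a : Fin 3 → ℂ) : ℂ :=
  (((ArithmeticFunction.moebius m : ℤ) : ℂ)) * (m : ℂ) ^ (s - 1 - v) * fm m s a w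

/-- `∑ μ(m) m^(s-1-v) fm m`. -/
noncomputable def SM (s v w : ℂ) (a : Fin 3 → ℂ) : ℂ := ∑' m : ℕ, smt m s v w a

/-- Local factors of the correction. -/
noncomputable def AAp (p : ℕ) (s v w : ℂ) (a : Fin 3 → ℂ) : ℂ :=
  (1 - (p : ℂ) ^ (s - 1 - v) * fp p s a w) * (1 - (p : ℂ) ^ (-1 - v)) *
    (1 - (p : ℂ) ^ (-1 - v - w)) * (1 - (p : ℂ) ^ (-2 + s - v)) /
      ∏ i, (1 - (p : ℂ) ^ (-1 - v - a i))

/-- The correction factor. -/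
noncomputable def AA (s v w : ℂ) (a : Fin 3 → ℂ) : ℂ := ∏' p : Nat.Primes, AAp p s v w a

/-- The region in which `AA` is bounded: `s` near 1, `a` small, `v, w` in narrow strips. -/
def Reg (s v w : ℂ) (a : Fin 3 → ℂ) : Prop :=
  ‖s - 1‖ ≤ 1 / 100 ∧ (∀ i, ‖a i‖ ≤ 1 / 100) ∧ |v.re| ≤ 1 / 100 ∧ |w.re| ≤ 1 / 100

/-- CID: the `n`-sum for fixed squarefree `m`. -/
def CidStatement : Prop := ∀ m : ℕ, Squarefree m → ∀ (a : Fin 3 → ℂ) (w s : ℂ),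
  1 < s.re → 1 < (s + w).re → (∀ i, 1 < (s + a i).re) →
    Summable (fun n : ℕ => ‖hh a w n * (ramC m n : ℂ) * (n : ℂ) ^ (-s)‖) ∧
    ∑' n : ℕ, hh a w n * (ramC m n : ℂ) * (n : ℂ) ^ (-s) =
      Hz s a w * (m.totient : ℂ) * fm m s a w

/-- FPB: size of the local factors. -/
def FpbStatement : Prop := ∃ C : ℝ, 0 < C ∧ ∀ p : ℕ, p.Prime → ∀ (σ : ℝ) (s w : ℂ) (a : Fin 3 → ℂ),
  7 / 10 ≤ σ → σ ≤ 1 → σ ≤ s.re → (∀ i, σ ≤ (s + a i).re) → σ ≤ (s + w).re →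
    ‖fp p s a w‖ ≤ C * (p : ℝ) ^ (-σ) ∧
    ‖fp p s a w + (p : ℂ)⁻¹ - ∑ i, (p : ℂ) ^ (-s - a i) + (p : ℂ) ^ (-s) + (p : ℂ) ^ (-s - w)‖ ≤
      C * (p : ℝ) ^ (-(2 * σ))

/-- AAB: bound for the local factors and for `AA`. -/
def AabStatement : Prop := ∃ C : ℝ, 0 < C ∧ ∀ (s v w : ℂ) (a : Fin 3 → ℂ), Reg s v w a →
  (∀ p : ℕ, p.Prime → ‖AAp p s v w a - 1‖ ≤ C * (p : ℝ) ^ (-(3 / 2 : ℝ))) ∧
  Multipliable (fun p : Nat.Primes => AAp p s v w a) ∧ ‖AA s v w a‖ ≤ C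

/-- AAL: `AA → 1` at the origin, and continuity. -/
def AalStatement : Prop :=
  (∀ ε : ℝ, 0 < ε → ∃ δ : ℝ, 0 < δ ∧ ∀ (s v w : ℂ) (a : Fin 3 → ℂ),
    ‖s - 1‖ ≤ δ → ‖v‖ ≤ δ → ‖w‖ ≤ δ → (∀ i, ‖a i‖ ≤ δ) → ‖AA s v w a - 1‖ ≤ ε) ∧
  ContinuousOn (fun q : ℂ × ℂ × ℂ × (Fin 3 → ℂ) => AA q.1 q.2.1 q.2.2.1 q.2.2.2)
    {q | Reg q.1 q.2.1 q.2.2.1 q.2.2.2}

/-- SME: the `m`-sum is absolutely convergent, with Euler product. -/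
def SmeStatement : Prop := ∀ (s v w : ℂ) (a : Fin 3 → ℂ), Reg s v w a →
  0 < v.re → 0 < w.re → (s - 1).re < v.re → (∀ i, -(a i).re < v.re) →
    Summable (fun m : ℕ => ‖smt m s v w a‖) ∧
    SM s v w a = riemannZeta (1 + v) * riemannZeta (1 + v + w) * riemannZeta (2 - s + v) /
      (∏ i, riemannZeta (1 + v + a i)) * AA s v w a

/-- ZB: zeta is neither large nor small to the right of 7/10 (under RH). -/
def ZbStatement : Prop := RiemannHypothesis → ∀ ε : ℝ, 0 < ε → ∃ C : ℝ, 0 < C ∧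
  ∀ s : ℂ, 7 / 10 ≤ s.re → s.re ≤ 3 → s ≠ 1 →
    ‖riemannZeta s‖ * min ‖s - 1‖ 1 ≤ C * (1 + |s.im|) ^ ε ∧
    1 ≤ C * (1 + |s.im|) ^ ε * min ‖s - 1‖ 1 * ‖riemannZeta s‖

end Pool.Agent.Lib.MP_6bc78b_nt.MS.P3
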