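import Pool.Agent.Lib.MP_6bc78b_nt.MS.Top
import Pool.Agent.Lib.MP_6bc78b_nt.MS.P3.IfaceE

/-! Project MS, Part III, the statement LVV (second moment of `v`): definitions and the
statements of the modules of the board ms3_modules. `L = log T` everywhere; `A`, `W`, `V`, `Z`
are the scaled variables (`a = A/L`, `w = W/L`, `v = V/L`, `s = 1 + Z/L`). -/

set_option autoImplicit false

open Complex Filter Topology ArithmeticFunction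

namespace Pool.Agent.Lib.MP_6bc78b_nt.MS.P3

/-! ## Definitions -/

/-- `(s - 1) ζ(s)`, entire, value `1` at `s = 1`. -/
noncomputable def zr (s : ℂ) : ℂ := Function.update (fun s => (s - 1) * riemannZeta s) 1 1 s

/-- `1/ζ(s)`, analytic also at `s = 1`. -/
noncomputable def iz (s : ℂ) : ℂ := (s - 1) / zr s

/-- The finite sum over `m ≤ y` with the mollifier coefficients. -/
noncomputable def NN (th c1 c2 T : ℝ) (s : ℂ) (a : Fin 3 → ℂ) (w : ℂ) : ℂ :=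
  ∑ m ∈ Finset.Icc 1 ⌊T ^ th⌋₊, (betf th c1 c2 T m : ℂ) * (m : ℂ) ^ (s - 1) * fm m s a w

/-- `Psum` with the function `hh a w` in place of `α`. -/
noncomputable def RR (th c1 c2 T : ℝ) (j : ℕ) (a : Fin 3 → ℂ) (w : ℂ) : ℂ :=
  ∑ m ∈ Finset.Icc 1 ⌊T ^ th⌋₊, ((betf th c1 c2 T m / (m * (Nat.totient m : ℝ)) : ℝ) : ℂ) *
    ∑' n : ℕ, hh a w n * ((ramC m n * Real.log ((n : ℝ) / m) ^ j * GG T ((n : ℝ) / m) : ℝ) : ℂ)

/-- Mellin transform of `(log r)^j G(r)`. -/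
noncomputable def Gm (j : ℕ) (T : ℝ) (s : ℂ) : ℂ :=
  mellin (fun r : ℝ => ((Real.log r ^ j * GG T r : ℝ) : ℂ)) s

/-- The line `Re = 2`. -/
noncomputable def ln (u : ℝ) : ℂ := 2 + u * I

/-- Laplace transform of the mollifier polynomial. -/
noncomputable def PH (th c1 c2 : ℝ) (W : ℂ) : ℂ := c1 / (th * W ^ 2) + 2 * c2 / (th ^ 2 * W ^ 3)

/-- `a = A / log T`. -/
noncomputable def sc (T : ℝ) (A : Fin 3 → ℂ) : Fin 3 → ℂ := fun i => A i / (Real.log T : ℂ)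

/-- Average over the circle `|A| = 1/4`. -/
noncomputable def cav (f : ℂ → ℂ) : ℂ :=
  ((2 * Real.pi : ℝ) : ℂ)⁻¹ * ∫ θ in (0 : ℝ)..(2 * Real.pi), f (1 / 4 * Complex.exp (θ * I))

/-- Average over three circles. -/
noncomputable def av3 (f : (Fin 3 → ℂ) → ℂ) : ℂ :=
  cav fun x => cav fun y => cav fun z => f ![x, y, z]

/-- The weight `∏ A_i^(-e_i)`. -/
noncomputable def wA (e : Fin 3 → ℕ) (A : Fin 3 → ℂ) : ℂ := ∏ i, ((A i) ^ (e i))⁻¹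

/-- Integral over the boundary of the square `|Re|, |Im| ≤ 1/2`, counterclockwise. -/
noncomputable def sqI (f : ℂ → ℂ) : ℂ :=
  (∫ x in (-(1 / 2) : ℝ)..(1 / 2), f (x - I / 2)) - (∫ x in (-(1 / 2) : ℝ)..(1 / 2), f (x + I / 2))
  + I * (∫ y in (-(1 / 2) : ℝ)..(1 / 2), f (1 / 2 + y * I))
  - I * (∫ y in (-(1 / 2) : ℝ)..(1 / 2), f (-(1 / 2) + y * I))

/-- The boundary of the square. -/
def sqB : Set ℂ :=
  {Z : ℂ | |Z.re| ≤ 1 / 2 ∧ |Z.im| ≤ 1 / 2 ∧ (|Z.re| = 1 / 2 ∨ |Z.im| = 1 / 2)}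

/-- The closed polydisc `|A_i| ≤ 1/4`. -/
def pd : Set (Fin 3 → ℂ) := {A | ∀ i, ‖A i‖ ≤ 1 / 4}

/-- The three functions `α`: `e = (1,1,1)`, `(1,1,0)`, `(0,1,0)`. -/
noncomputable def ale (e : Fin 3 → ℕ) (th c1 c2 T : ℝ) : ArithmeticFunction ℝ :=
  (if e 2 = 0 then 1 else La) * (if e 0 = 0 then one else lg) * (if e 1 = 0 then one else lg) *
    bet th c1 c2 T

/-- The normalised integrand after the sum over `m ≤ y`. -/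
noncomputable def KK (th c1 c2 T : ℝ) (j : ℕ) (Z : ℂ) (A : Fin 3 → ℂ) (W : ℂ) : ℂ :=
  Gm j T (1 + Z / Real.log T) * Hz (1 + Z / Real.log T) (sc T A) (W / Real.log T) *
    NN th c1 c2 T (1 + Z / Real.log T) (sc T A) (W / Real.log T) /
    (Real.log T * (cG T * Real.log T ^ j))

/-- The `V`-integrand of the limit. -/
noncomputable def VI (th c1 c2 : ℝ) (Z : ℂ) (A : Fin 3 → ℂ) (W : ℂ) (u : ℝ) : ℂ :=
  PH th c1 c2 (ln u) * Complex.exp (th * ln u) * (∏ i, (ln u + A i)) /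
    (ln u * (ln u + W) * (ln u - Z))

/-- Its limit. -/
noncomputable def KI (th c1 c2 : ℝ) (Z : ℂ) (A : Fin 3 → ℂ) (W : ℂ) : ℂ :=
  Complex.exp Z * (Z * (Z + W)) / (∏ i, (Z + A i)) *
    (((2 * Real.pi : ℝ) : ℂ)⁻¹ * ∫ u : ℝ, VI th c1 c2 Z A W u)

/-- The limits of the normalised `P_j`, up to sign. -/
noncomputable def XE (th c1 c2 : ℝ) (e : Fin 3 → ℕ) : ℂ :=
  ((2 * Real.pi : ℝ) : ℂ)⁻¹ * ∫ u : ℝ, PH th c1 c2 (ln u) * Complex.exp (th * ln u) *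
    ((2 * Real.pi * I)⁻¹ * sqI fun Z => av3 fun A => wA e A * KI th c1 c2 Z A (ln u))

/-! ## Statements -/

/-- (ZR) `(s-1) ζ(s)` is entire; no zeros to the right of 1/2 under RH. -/
def ZrStatement : Prop :=
  Differentiable ℂ zr ∧ zr 1 = 1 ∧ (∀ s : ℂ, s ≠ 1 → riemannZeta s = zr s / (s - 1)) ∧
  (∀ s : ℂ, s ≠ 1 → iz s = (riemannZeta s)⁻¹) ∧
  (RiemannHypothesis → ∀ s : ℂ, 1 / 2 < s.re → zr s ≠ 0) ∧
  (∀ x : ℂ, x ≠ 0 → Tendsto (fun L : ℝ => riemannZeta (1 + x / L) / L) atTop (𝓝 (1 / x)))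

/-- (GM) the Mellin transform of the weight. -/
def GmStatement : Prop :=
  (∀ (j : ℕ) (T σ x : ℝ), 3 ≤ T → 0 < σ → 0 < x →
    MeasureTheory.Integrable (fun y : ℝ => Gm j T (σ + y * I)) ∧
    ((Real.log x ^ j * GG T x : ℝ) : ℂ) = ((2 * Real.pi : ℝ) : ℂ)⁻¹ *
      ∫ y : ℝ, (x : ℂ) ^ (-((σ : ℂ) + y * I)) * Gm j T (σ + y * I)) ∧
  (∀ (j : ℕ) (T : ℝ) (s : ℂ), 3 ≤ T → 0 < s.re → DifferentiableAt ℂ (Gm j T) s) ∧
  (∀ j : ℕ, ∃ C T1 : ℝ, 0 < C ∧ ∀ T : ℝ, T1 ≤ T → ∀ s : ℂ, 1 / 2 ≤ s.re → s.re ≤ 3 →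
    ‖Gm j T s‖ ≤ C * T ^ s.re * Real.log T ^ (j + 2) / (1 + s.im ^ 2)) ∧
  (∀ (j : ℕ) (R ε : ℝ), 0 < ε → ∀ᶠ T : ℝ in atTop, ∀ Z : ℂ, ‖Z‖ ≤ R →
    ‖Gm j T (1 + Z / Real.log T) / (cG T * Real.log T ^ j) - Complex.exp Z‖ ≤ ε)

/-- (LAP) inverse Laplace transforms of powers, on the line `Re = 2`. -/
def LapStatement : Prop := ∀ (k : ℕ) (x : ℝ), 1 ≤ k →
  MeasureTheory.Integrable (fun u : ℝ => Complex.exp (x * ln u) / ln u ^ (k + 1)) ∧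
  ((2 * Real.pi : ℝ) : ℂ)⁻¹ * ∫ u : ℝ, Complex.exp (x * ln u) / ln u ^ (k + 1) =
    (((max x 0) ^ k / (Nat.factorial k : ℝ) : ℝ) : ℂ)

/-- (BL) the mollifier coefficients as line integrals. -/
def BlStatement : Prop := ∀ (th c1 c2 T : ℝ), 0 < th → 1 < T → ∀ n : ℕ, n ≠ 0 →
  MeasureTheory.Integrable (fun u : ℝ => PH th c1 c2 (ln u) * Complex.exp (th * ln u) *
    (n : ℂ) ^ (-(ln u / Real.log T))) ∧
  (betf th c1 c2 T n : ℂ) = ((ArithmeticFunction.moebius n : ℤ) : ℂ) *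
    (((2 * Real.pi : ℝ) : ℂ)⁻¹ * ∫ u : ℝ, PH th c1 c2 (ln u) * Complex.exp (th * ln u) *
      (n : ℂ) ^ (-(ln u / Real.log T)))

/-- (CAV) the circle averages. -/
def CavStatement : Prop := ∀ (T : ℝ), 1 < T → ∀ n : ℕ, n ≠ 0 →
  cav (fun A => (n : ℂ) ^ (-(A / Real.log T))) = 1 ∧
  cav (fun A => A⁻¹ * (n : ℂ) ^ (-(A / Real.log T))) =
    -((Real.log n / Real.log T : ℝ) : ℂ) ∧
  cav (fun A => (pw (A / Real.log T) * muC) n) = ((1 : ArithmeticFunction ℂ) n) ∧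
  cav (fun A => A⁻¹ * (pw (A / Real.log T) * muC) n) = -((La n / Real.log T : ℝ) : ℂ)

/-- (R1) `P_j` as an average over circles and an integral over the line of `w`. -/
def R1Statement : Prop := ∀ th c1 c2 : ℝ, 0 < th → th < 1 / 2 → ∃ T0 : ℝ, ∀ T : ℝ, T0 ≤ T →
  ∀ (j : ℕ) (e : Fin 3 → ℕ), (∀ i, e i ≤ 1) →
    MeasureTheory.Integrable (fun u : ℝ => PH th c1 c2 (ln u) * Complex.exp (th * ln u) *
      av3 fun A => wA e A * RR th c1 c2 T j (sc T A) (ln u / Real.log T)) ∧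
    (Psum th c1 c2 T j (ale e th c1 c2 T) : ℂ) = (-(Real.log T : ℂ)) ^ (∑ i, e i) *
      (((2 * Real.pi : ℝ) : ℂ)⁻¹ * ∫ u : ℝ, PH th c1 c2 (ln u) * Complex.exp (th * ln u) *
        av3 fun A => wA e A * RR th c1 c2 T j (sc T A) (ln u / Real.log T))

/-- (R2) Mellin inversion, for fixed `A`, `W`; continuity in `A`. -/
def R2Statement : Prop := ∀ th c1 c2 : ℝ, 0 < th → th < 1 / 2 → ∃ T0 : ℝ, ∀ T : ℝ, T0 ≤ T →
  ∀ (j : ℕ) (W : ℂ), W.re = 2 →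
    ContinuousOn (fun A => RR th c1 c2 T j (sc T A) (W / Real.log T)) pd ∧
    ∀ A ∈ pd, RR th c1 c2 T j (sc T A) (W / Real.log T) = ((2 * Real.pi : ℝ) : ℂ)⁻¹ *
      ∫ t : ℝ, Gm j T (2 + t * I) * Hz (2 + t * I) (sc T A) (W / Real.log T) *
        NN th c1 c2 T (2 + t * I) (sc T A) (W / Real.log T)

/-- (NB) `NN` is analytic in `Re s > 7/10`, and small on `3/4 ≤ Re s ≤ 2`. -/
def NbStatement : Prop := ∀ th c1 c2 : ℝ, 0 < th → th < 1 / 2 → ∃ C T0 : ℝ, 0 < C ∧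
  ∀ T : ℝ, T0 ≤ T → ∀ A ∈ pd, ∀ W : ℂ, W.re = 2 →
    (∀ s : ℂ, 7 / 10 < s.re →
      DifferentiableAt ℂ (fun s => NN th c1 c2 T s (sc T A) (W / Real.log T)) s) ∧
    (∀ s : ℂ, s.re = 3 / 4 →
      ‖NN th c1 c2 T s (sc T A) (W / Real.log T)‖ ≤ C * T ^ (1 / 50 : ℝ)) ∧
    (∀ s : ℂ, 3 / 4 ≤ s.re → s.re ≤ 2 →
      ‖NN th c1 c2 T s (sc T A) (W / Real.log T)‖ ≤ C * T)

/-- (SQ) from the line `Re s = 2` to a small square around `1` and the line `Re s = 3/4`. -/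
def SqStatement : Prop := ∀ (f : ℂ → ℂ) (ℓ K : ℝ), 4 ≤ ℓ →
  (∀ s : ℂ, 3 / 4 ≤ s.re → s.re ≤ 2 → (1 / (2 * ℓ) ≤ |s.re - 1| ∨ 1 / (2 * ℓ) ≤ |s.im|) →
    DifferentiableAt ℂ f s ∧ ‖f s‖ ≤ K / (1 + |s.im|) ^ (3 / 2 : ℝ)) →
  MeasureTheory.Integrable (fun t : ℝ => f (2 + t * I)) ∧
  MeasureTheory.Integrable (fun t : ℝ => f (3 / 4 + t * I)) ∧
  ((2 * Real.pi : ℝ) : ℂ)⁻¹ * ∫ t : ℝ, f (2 + t * I) =
    ((2 * Real.pi : ℝ) : ℂ)⁻¹ * (∫ t : ℝ, f (3 / 4 + t * I)) +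
      (2 * Real.pi * I)⁻¹ * (ℓ : ℂ)⁻¹ * sqI (fun Z => f (1 + Z / ℓ))

/-- (SW) the averages over the circles and the integral over the square commute. -/
def SwStatement : Prop := ∀ (g : ℂ → (Fin 3 → ℂ) → ℂ),
  ContinuousOn (fun p : ℂ × (Fin 3 → ℂ) => g p.1 p.2) (sqB ×ˢ pd) →
  ∀ e : Fin 3 → ℕ, (av3 fun A => wA e A * sqI fun Z => g Z A) =
    sqI fun Z => av3 fun A => wA e A * g Z A

/-- (R3) shift of the contour, averaged over the circles. -/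
def R3Statement : Prop := ∀ th c1 c2 : ℝ, 0 < th → th < 1 / 2 → ∀ j : ℕ,
  ∃ C T0 : ℝ, ∀ T : ℝ, T0 ≤ T → ∀ (e : Fin 3 → ℕ), (∀ i, e i ≤ 1) → ∀ W : ℂ, W.re = 2 →
    ‖(av3 fun A => wA e A * RR th c1 c2 T j (sc T A) (W / Real.log T)) -
      (cG T * Real.log T ^ j) * ((2 * Real.pi * I)⁻¹ *
        sqI fun Z => av3 fun A => wA e A * KK th c1 c2 T j Z A W)‖
      ≤ C * T ^ (9 / 10 : ℝ) * ‖W‖ ^ (1 / 4 : ℝ)

/-- (R4) `NN` as a line integral of the infinite sum `SM`. -/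
def R4Statement : Prop := ∀ th c1 c2 : ℝ, 0 < th → th < 1 / 2 → ∃ T0 : ℝ, ∀ T : ℝ, T0 ≤ T →
  ∀ Z ∈ sqB, ∀ A ∈ pd, ∀ W : ℂ, W.re = 2 →
    MeasureTheory.AEStronglyMeasurable (fun u : ℝ =>
      SM (1 + Z / Real.log T) (ln u / Real.log T) (W / Real.log T) (sc T A)) ∧
    NN th c1 c2 T (1 + Z / Real.log T) (sc T A) (W / Real.log T) = ((2 * Real.pi : ℝ) : ℂ)⁻¹ *
      ∫ u : ℝ, PH th c1 c2 (ln u) * Complex.exp (th * ln u) *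
        SM (1 + Z / Real.log T) (ln u / Real.log T) (W / Real.log T) (sc T A)

/-- (MJ) the majorant. -/
def MjStatement : Prop :=
  (∀ (L x y z : ℝ), 0 < L → 0 ≤ x → 0 ≤ y → 0 < z →
    min x L * min y L / min z L ≤ x * y / z + Real.sqrt (x * y)) ∧
  ∃ C : ℝ, ∀ W : ℂ, W.re = 2 →
    MeasureTheory.Integrable (fun u : ℝ => (‖ln u‖ * ‖W‖ / ‖ln u + W‖ +
      Real.sqrt (‖ln u‖ * ‖W‖)) * ‖ln u‖ ^ (-(17 / 10) : ℝ)) ∧
    ∫ u : ℝ, (‖ln u‖ * ‖W‖ / ‖ln u + W‖ + Real.sqrt (‖ln u‖ * ‖W‖)) *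
      ‖ln u‖ ^ (-(17 / 10) : ℝ) ≤ C * ‖W‖ ^ (1 / 2 : ℝ)

/-- (KB) bound of the normalised integrand. -/
def KbStatement : Prop := ∀ th c1 c2 : ℝ, 0 < th → th < 1 / 2 → ∀ j : ℕ,
  ∃ C T0 : ℝ, ∀ T : ℝ, T0 ≤ T → ∀ Z ∈ sqB, ∀ A ∈ pd, ∀ W : ℂ, W.re = 2 →
    ‖KK th c1 c2 T j Z A W‖ ≤ C * ‖W‖ ^ (3 / 5 : ℝ)

/-- (KL) limit of the normalised integrand. -/
def KlStatement : Prop := ∀ th c1 c2 : ℝ, 0 < th → th < 1 / 2 → ∀ j : ℕ,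
  ∀ Z ∈ sqB, ∀ A ∈ pd, ∀ W : ℂ, W.re = 2 →
    Tendsto (fun T : ℝ => KK th c1 c2 T j Z A W) atTop (𝓝 (KI th c1 c2 Z A W))

/-- (KC) continuity of the normalised integrand. -/
def KcStatement : Prop := ∀ th c1 c2 : ℝ, 0 < th → th < 1 / 2 → ∀ j : ℕ,
  ∃ T0 : ℝ, ∀ T : ℝ, T0 ≤ T →
    ContinuousOn (fun p : ℂ × (Fin 3 → ℂ) × ℂ => KK th c1 c2 T j p.1 p.2.1 p.2.2)
      (sqB ×ˢ pd ×ˢ {W : ℂ | W.re = 2})

/-- (LIM) dominated convergence. -/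
def LimStatement : Prop := ∀ th c1 c2 : ℝ, 0 < th → th < 1 / 2 → ∀ (j : ℕ) (e : Fin 3 → ℕ),
  (∀ᶠ T : ℝ in atTop, MeasureTheory.Integrable (fun u : ℝ =>
    PH th c1 c2 (ln u) * Complex.exp (th * ln u) *
      ((2 * Real.pi * I)⁻¹ * sqI fun Z => av3 fun A => wA e A * KK th c1 c2 T j Z A (ln u)))) ∧
  Tendsto (fun T : ℝ => ((2 * Real.pi : ℝ) : ℂ)⁻¹ * ∫ u : ℝ,
    PH th c1 c2 (ln u) * Complex.exp (th * ln u) *
      ((2 * Real.pi * I)⁻¹ * sqI fun Z => av3 fun A => wA e A * KK th c1 c2 T j Z A (ln u)))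
    atTop (𝓝 (XE th c1 c2 e))

/-- (EV) the value of the limit. -/
def EvStatement : Prop := ∀ th c1 c2 : ℝ, 0 < th → th < 1 / 2 →
  -2 * XE th c1 c2 ![1, 1, 1] - 3 * XE th c1 c2 ![1, 1, 0] - XE th c1 c2 ![0, 1, 0] =
    (m2 th c1 c2 : ℂ)

end Pool.Agent.Lib.MP_6bc78b_nt.MS.P3
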