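import Pool.Agent.Lib.MP_6bc78b_nt.MS.P3.Iface
import Pool.Agent.Lib.MP_6bc78b_nt.MS.P3.H28.Av

/-! Board ms3_modules, module LIM: dominated convergence. -/

set_option autoImplicit false

open Complex Filter Topology MeasureTheory Set

namespace Pool.Agent.Lib.MP_6bc78b_nt.MS.P3

namespace H28

lemma ln_re (u : ℝ) : (ln u).re = 2 := by simp [ln]

lemma ln_cont : Continuous ln := by unfold ln; fun_prop

lemma ln_ne (u : ℝ) : ln u ≠ 0 := fun h => by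
  have := congrArg Complex.re h
  rw [ln_re] at this
  norm_num at this

lemma ln_norm_ge (u : ℝ) : 2 ≤ ‖ln u‖ := by
  have h := Complex.re_le_norm (ln u)
  rwa [ln_re] at h

lemma ln_norm_sq (u : ℝ) : ‖ln u‖ ^ 2 = 4 + u ^ 2 := by
  rw [← Complex.normSq_eq_norm_sq, ln]
  rw [Complex.normSq_apply]
  simp
  ring

lemma PH_cont (th c1 c2 : ℝ) (hth : th ≠ 0) : Continuous (fun u : ℝ => PH th c1 c2 (ln u)) := by
  unfold PH
  have h1 : (th : ℂ) ≠ 0 := by exact_mod_cast hth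
  refine Continuous.add (continuous_const.div (continuous_const.mul (ln_cont.pow 2)) fun u =>
    mul_ne_zero h1 (pow_ne_zero _ (ln_ne u))) (continuous_const.div
      (continuous_const.mul (ln_cont.pow 3)) fun u =>
        mul_ne_zero (pow_ne_zero _ h1) (pow_ne_zero _ (ln_ne u)))

lemma PH_bound (th c1 c2 : ℝ) : ∃ C : ℝ, 0 ≤ C ∧ ∀ u : ℝ,
    ‖PH th c1 c2 (ln u) * Complex.exp (th * ln u)‖ ≤ C * ‖ln u‖ ^ (-2 : ℝ) := by
  refine ⟨(|c1| / |th| + |c2| / |th| ^ 2) * Real.exp (th * 2), by positivity, fun u => ?_⟩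
  have h0 : 0 < ‖ln u‖ := by linarith [ln_norm_ge u]
  have h1 : ‖Complex.exp (th * ln u)‖ = Real.exp (th * 2) := by
    rw [Complex.norm_exp]
    simp [ln]
  have h2 : ‖PH th c1 c2 (ln u)‖ ≤ (|c1| / |th| + |c2| / |th| ^ 2) * ‖ln u‖ ^ (-2 : ℝ) := by
    unfold PH
    refine (norm_add_le _ _).trans ?_
    rw [norm_div, norm_div, norm_mul, norm_mul, norm_mul, norm_pow, norm_pow, norm_pow,
      Complex.norm_real, Complex.norm_real, Complex.norm_real, Real.norm_eq_abs, Real.norm_eq_abs,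
      Real.norm_eq_abs, Complex.norm_ofNat]
    rw [Real.rpow_neg h0.le, add_mul]
    have h3 : ‖ln u‖ ^ (2 : ℝ) = ‖ln u‖ ^ 2 := by
      rw [← Real.rpow_natCast]; norm_num
    rw [h3]
    refine add_le_add ?_ ?_
    · rw [div_mul_eq_div_div]
      exact le_of_eq (div_eq_mul_inv _ _)
    · rw [div_mul_eq_div_div, div_eq_mul_inv _ (‖ln u‖ ^ 3)]
      have h4 : (‖ln u‖ ^ 3)⁻¹ = (‖ln u‖)⁻¹ * (‖ln u‖ ^ 2)⁻¹ := by
        rw [← mul_inv]; ring_nf
      have h5 : (‖ln u‖)⁻¹ ≤ 2⁻¹ := by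
        gcongr
        exact ln_norm_ge u
      calc 2 * |c2| / |th| ^ 2 * (‖ln u‖ ^ 3)⁻¹
          = (2 * |c2| / |th| ^ 2 * (‖ln u‖)⁻¹) * (‖ln u‖ ^ 2)⁻¹ := by rw [h4]; ring
        _ ≤ (2 * |c2| / |th| ^ 2 * 2⁻¹) * (‖ln u‖ ^ 2)⁻¹ := by gcongr
        _ = |c2| / |th| ^ 2 * (‖ln u‖ ^ 2)⁻¹ := by ring
  rw [norm_mul, h1]
  calc ‖PH th c1 c2 (ln u)‖ * Real.exp (th * 2)
      ≤ ((|c1| / |th| + |c2| / |th| ^ 2) * ‖ln u‖ ^ (-2 : ℝ)) * Real.exp (th * 2) := by gcongr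
    _ = _ := by ring

lemma ln_rpow_int {r : ℝ} (hr : 1 < r) : Integrable (fun u : ℝ => ‖ln u‖ ^ (-r)) := by
  have h1 : Integrable (fun u : ℝ => (1 + ‖u‖ ^ 2) ^ (-r / 2)) := by
    refine integrable_rpow_neg_one_add_norm_sq ?_
    simpa using hr
  refine h1.mono' ?_ (Eventually.of_forall fun u => ?_)
  · exact (Continuous.rpow_const ln_cont.norm fun u => Or.inl
      (by have := ln_norm_ge u; linarith)).aestronglyMeasurable
  · have h0 : 0 < ‖ln u‖ := by linarith [ln_norm_ge u]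
    rw [Real.norm_of_nonneg (Real.rpow_nonneg h0.le _)]
    have h2 : ‖ln u‖ ^ (-r) = (‖ln u‖ ^ 2) ^ (-r / 2) := by
      rw [← Real.rpow_natCast, ← Real.rpow_mul h0.le]
      congr 1
      push_cast
      ring
    rw [h2, ln_norm_sq]
    refine Real.rpow_le_rpow_of_nonpos (by positivity) ?_ (by linarith)
    rw [Real.norm_eq_abs, sq_abs]
    linarith

end H28

open H28 in
theorem lim (hKB : KbStatement) (hKL : KlStatement) (hKC : KcStatement) : LimStatement := by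
  intro th c1 c2 h0 h1 j e
  obtain ⟨C, T0, hC⟩ := hKB th c1 c2 h0 h1 j
  obtain ⟨T1, hc⟩ := hKC th c1 c2 h0 h1 j
  have hL := hKL th c1 c2 h0 h1 j
  obtain ⟨P, hP0, hP⟩ := PH_bound th c1 c2
  -- the inner function
  set Φ : ℝ → ℂ → ℂ := fun T W => sqI fun Z => av3 fun A => wA e A * KK th c1 c2 T j Z A W with hΦ
  set E : ℝ := 4 ^ (∑ i, e i) with hE
  have hE0 : 0 ≤ E := by positivity
  have hCe : ∀ T, T0 ≤ T → ∀ W : ℂ, W.re = 2 → ∀ Z ∈ sqB, ∀ A ∈ to3,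
      ‖wA e A * KK th c1 c2 T j Z A W‖ ≤ E * (C * ‖W‖ ^ (3 / 5 : ℝ)) := by
    intro T hT W hW Z hZ A hA
    rw [norm_mul, wA_norm e hA]
    exact mul_le_mul_of_nonneg_left (hC T hT Z hZ A (to3_sub_pd hA) W hW) hE0
  have hΦb : ∀ T, T0 ≤ T → ∀ W : ℂ, W.re = 2 → ‖Φ T W‖ ≤ 4 * (E * (C * ‖W‖ ^ (3 / 5 : ℝ))) := by
    intro T hT W hW
    exact sqI_bound fun Z hZ => av3_bound fun A hA => hCe T hT W hW Z hZ A hA
  -- continuity
  have hcc : ∀ T, T1 ≤ T → ContinuousOn (fun q : (ℂ × ℂ) × (Fin 3 → ℂ) =>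
      wA e q.2 * KK th c1 c2 T j q.1.2 q.2 q.1.1) (({W : ℂ | W.re = 2} ×ˢ sqB) ×ˢ to3) := by
    intro T hT
    refine ContinuousOn.mul ((wA_contOn e).comp continuous_snd.continuousOn fun q hq => hq.2) ?_
    refine (hc T hT).comp (f := fun q : (ℂ × ℂ) × (Fin 3 → ℂ) => (q.1.2, q.2, q.1.1))
      (by fun_prop) fun q hq => ⟨hq.1.2, to3_sub_pd hq.2, hq.1.1⟩
  have hca : ∀ T, T1 ≤ T → ContinuousOn (fun q : ℂ × ℂ =>
      av3 fun A => wA e A * KK th c1 c2 T j q.2 A q.1) ({W : ℂ | W.re = 2} ×ˢ sqB) := fun T hT =>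
    av3_continuousOn (g := fun q : ℂ × ℂ => fun A => wA e A * KK th c1 c2 T j q.2 A q.1) (hcc T hT)
  have hΦc : ∀ T, T1 ≤ T → ContinuousOn (Φ T) {W : ℂ | W.re = 2} := fun T hT =>
    sqI_continuousOn (g := fun W => fun Z => av3 fun A => wA e A * KK th c1 c2 T j Z A W) (hca T hT)
  have hΦu : ∀ T, T1 ≤ T → Continuous (fun u : ℝ => Φ T (ln u)) := fun T hT =>
    (hΦc T hT).comp_continuous ln_cont fun u => ln_re u
  have hmeas : ∀ T, T1 ≤ T → Continuous (fun u : ℝ => PH th c1 c2 (ln u) *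
      Complex.exp (th * ln u) * ((2 * Real.pi * I)⁻¹ * Φ T (ln u))) := fun T hT =>
    ((PH_cont th c1 c2 h0.ne').mul (by have := ln_cont; fun_prop)).mul
      (continuous_const.mul (hΦu T hT))
  -- the majorant
  have hbd : ∀ T, T0 ≤ T → ∀ u : ℝ, ‖PH th c1 c2 (ln u) *
      Complex.exp (th * ln u) * ((2 * Real.pi * I)⁻¹ * Φ T (ln u))‖ ≤
        (P * (‖(2 * Real.pi * I : ℂ)⁻¹‖ * (4 * (E * |C|)))) * ‖ln u‖ ^ (-(7 / 5) : ℝ) := by
    intro T hT u
    have hn : 0 < ‖ln u‖ := by linarith [ln_norm_ge u]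
    rw [norm_mul, norm_mul (2 * Real.pi * I : ℂ)⁻¹]
    have h2 : ‖ln u‖ ^ (-(7 / 5) : ℝ) = ‖ln u‖ ^ (-2 : ℝ) * ‖ln u‖ ^ (3 / 5 : ℝ) := by
      rw [← Real.rpow_add hn]; norm_num
    have h3 : ‖Φ T (ln u)‖ ≤ 4 * (E * (|C| * ‖ln u‖ ^ (3 / 5 : ℝ))) := by
      refine (hΦb T hT (ln u) (ln_re u)).trans ?_
      have : C * ‖ln u‖ ^ (3 / 5 : ℝ) ≤ |C| * ‖ln u‖ ^ (3 / 5 : ℝ) :=
        mul_le_mul_of_nonneg_right (le_abs_self C) (by positivity)
      have := mul_le_mul_of_nonneg_left this hE0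
      linarith
    calc ‖PH th c1 c2 (ln u) * Complex.exp (th * ln u)‖ *
          (‖(2 * Real.pi * I : ℂ)⁻¹‖ * ‖Φ T (ln u)‖)
        ≤ (P * ‖ln u‖ ^ (-2 : ℝ)) *
          (‖(2 * Real.pi * I : ℂ)⁻¹‖ * (4 * (E * (|C| * ‖ln u‖ ^ (3 / 5 : ℝ))))) := by
          gcongr
          exact hP u
      _ = _ := by rw [h2]; ring
  have hint : Integrable (fun u : ℝ => (P * (‖(2 * Real.pi * I : ℂ)⁻¹‖ * (4 * (E * |C|)))) *
      ‖ln u‖ ^ (-(7 / 5) : ℝ)) := (ln_rpow_int (by norm_num)).const_mul _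
  refine ⟨?_, ?_⟩
  · filter_upwards [eventually_ge_atTop T0, eventually_ge_atTop T1] with T hT hT'
    exact hint.mono' (hmeas T hT').aestronglyMeasurable (Eventually.of_forall (hbd T hT))
  · refine Tendsto.const_mul _ ?_
    refine tendsto_integral_filter_of_dominated_convergence _ ?_ ?_ hint ?_
    · filter_upwards [eventually_ge_atTop T1] with T hT'
      exact (hmeas T hT').aestronglyMeasurable
    · filter_upwards [eventually_ge_atTop T0] with T hT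
      exact Eventually.of_forall (hbd T hT)
    · refine Eventually.of_forall fun u => ?_
      refine Tendsto.const_mul _ (Tendsto.const_mul _ ?_)
      refine sqI_tendsto (M := E * (C * ‖ln u‖ ^ (3 / 5 : ℝ))) ?_ ?_ fun Z hZ => ?_
      · filter_upwards [eventually_ge_atTop T1] with T hT'
        exact (hca T hT').comp (f := fun Z : ℂ => (ln u, Z)) (by fun_prop)
          fun Z hZ => ⟨ln_re u, hZ⟩
      · filter_upwards [eventually_ge_atTop T0] with T hT Z hZ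
        exact av3_bound fun A hA => hCe T hT (ln u) (ln_re u) Z hZ A hA
      · refine av3_tendsto (M := E * (C * ‖ln u‖ ^ (3 / 5 : ℝ))) ?_ ?_ fun A hA => ?_
        · filter_upwards [eventually_ge_atTop T1] with T hT'
          exact (hcc T hT').comp (f := fun A : Fin 3 → ℂ => ((ln u, Z), A)) (by fun_prop)
            fun A hA => ⟨⟨ln_re u, hZ⟩, hA⟩
        · filter_upwards [eventually_ge_atTop T0] with T hT A hA
          exact hCe T hT (ln u) (ln_re u) Z hZ A hA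
        · exact (hL Z hZ A (to3_sub_pd hA) (ln u) (ln_re u)).const_mul _

end Pool.Agent.Lib.MP_6bc78b_nt.MS.P3
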