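import Pool.Agent.Lib.MP_6bc78b_nt.MS.P3.H33.R2
import Pool.Agent.Lib.MP_6bc78b_nt.MS.P3.LIM

/-! Board ms3_modules, module R1: `Psum` as circle averages and line integral of `RR`. -/

set_option autoImplicit false

open Complex Filter Topology MeasureTheory Set ArithmeticFunction

namespace Pool.Agent.Lib.MP_6bc78b_nt.MS.P3

namespace H28

open H33

/-! ### Arithmetic functions with complex values -/

/-- A real arithmetic function, with complex values. -/
noncomputable def toC (f : ArithmeticFunction ℝ) : ArithmeticFunction ℂ :=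
  ⟨fun n => (f n : ℂ), by simp⟩

lemma toC_apply (f : ArithmeticFunction ℝ) (n : ℕ) : toC f n = (f n : ℂ) := rfl

lemma toC_mul (f g : ArithmeticFunction ℝ) : toC (f * g) = toC f * toC g := by
  ext n
  rw [toC_apply, ArithmeticFunction.mul_apply, ArithmeticFunction.mul_apply]
  push_cast
  rfl

lemma mul_scale {D X : ArithmeticFunction ℂ} {c : ℂ} (h : ∀ k, D k = c * X k)
    (Y : ArithmeticFunction ℂ) (n : ℕ) : (D * Y) n = c * (X * Y) n := by
  rw [ArithmeticFunction.mul_apply, ArithmeticFunction.mul_apply, Finset.mul_sum]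
  refine Finset.sum_congr rfl fun x _ => ?_
  rw [h]
  ring

lemma mul_scale' {D X : ArithmeticFunction ℂ} {c : ℂ} (h : ∀ k, D k = c * X k)
    (Y : ArithmeticFunction ℂ) (n : ℕ) : (Y * D) n = c * (Y * X) n := by
  rw [mul_comm Y D, mul_comm Y X]
  exact mul_scale h Y n

lemma mul_scale2 {D E X Y : ArithmeticFunction ℂ} {c d : ℂ} (h : ∀ k, D k = c * X k)
    (h' : ∀ k, E k = d * Y k) (n : ℕ) : (D * E) n = (c * d) * (X * Y) n := by
  rw [mul_scale h, mul_scale' h']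
  ring

/-- The average of a convolution of functions of one variable each. -/
lemma av3_conv (e : Fin 3 → ℕ) (P0 P1 P2 : ℂ → ArithmeticFunction ℂ)
    (C0 C1 C2 : ArithmeticFunction ℂ)
    (hc0 : ∀ k, Continuous fun z => P0 z k) (hc1 : ∀ k, Continuous fun z => P1 z k)
    (hc2 : ∀ k, Continuous fun z => P2 z k)
    (h0 : ∀ k, cav (fun z => (z ^ e 0)⁻¹ * P0 z k) = C0 k)
    (h1 : ∀ k, cav (fun z => (z ^ e 1)⁻¹ * P1 z k) = C1 k)
    (h2 : ∀ k, cav (fun z => (z ^ e 2)⁻¹ * P2 z k) = C2 k) (M : ArithmeticFunction ℂ) (n : ℕ) :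
    av3 (fun A => wA e A * (((P0 (A 0) * P1 (A 1)) * P2 (A 2)) * M) n) =
      (((C0 * C1) * C2) * M) n := by
  have hexp : ∀ A : Fin 3 → ℂ, wA e A * (((P0 (A 0) * P1 (A 1)) * P2 (A 2)) * M) n =
      ∑ t ∈ n.divisorsAntidiagonal, ∑ x ∈ t.1.divisorsAntidiagonal,
        ∑ y ∈ x.1.divisorsAntidiagonal, ((A 0 ^ e 0)⁻¹ * P0 (A 0) y.1) *
          ((A 1 ^ e 1)⁻¹ * P1 (A 1) y.2) * ((A 2 ^ e 2)⁻¹ * P2 (A 2) x.2) * M t.2 := by
    intro A
    rw [ArithmeticFunction.mul_apply, Finset.mul_sum]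
    refine Finset.sum_congr rfl fun t _ => ?_
    rw [ArithmeticFunction.mul_apply, Finset.sum_mul, Finset.mul_sum]
    refine Finset.sum_congr rfl fun x _ => ?_
    rw [ArithmeticFunction.mul_apply, Finset.sum_mul, Finset.sum_mul, Finset.mul_sum]
    refine Finset.sum_congr rfl fun y _ => ?_
    rw [wA, Fin.prod_univ_three]
    ring
  have hi : ∀ (i : Fin 3) (P : ℂ → ArithmeticFunction ℂ), (∀ k, Continuous fun z => P z k) →
      ∀ k, ContinuousOn (fun A : Fin 3 → ℂ => (A i ^ e i)⁻¹ * P (A i) k) to3 := by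
    intro i P hP k
    refine ContinuousOn.mul (ContinuousOn.inv₀ (by fun_prop) fun A hA => pow_ne_zero _ fun h => ?_)
      ((hP k).comp (continuous_apply i)).continuousOn
    have := hA i
    rw [h] at this
    norm_num at this
  have hterm : ∀ (a b c : ℕ) (m : ℂ), ContinuousOn (fun A : Fin 3 → ℂ =>
      ((A 0 ^ e 0)⁻¹ * P0 (A 0) a) * ((A 1 ^ e 1)⁻¹ * P1 (A 1) b) *
        ((A 2 ^ e 2)⁻¹ * P2 (A 2) c) * m) to3 := fun a b c m =>
    (((hi 0 P0 hc0 a).mul (hi 1 P1 hc1 b)).mul (hi 2 P2 hc2 c)).mul continuousOn_const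
  rw [av3_congr fun A _ => hexp A]
  rw [av3_finset_sum _ fun t _ => continuousOn_finsetSum _ fun x _ =>
    continuousOn_finsetSum _ fun y _ => hterm _ _ _ _]
  rw [ArithmeticFunction.mul_apply]
  refine Finset.sum_congr rfl fun t _ => ?_
  rw [av3_finset_sum _ fun x _ => continuousOn_finsetSum _ fun y _ => hterm _ _ _ _]
  rw [ArithmeticFunction.mul_apply, Finset.sum_mul]
  refine Finset.sum_congr rfl fun x _ => ?_
  rw [av3_finset_sum _ fun y _ => hterm _ _ _ _]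
  rw [ArithmeticFunction.mul_apply, Finset.sum_mul, Finset.sum_mul]
  refine Finset.sum_congr rfl fun y _ => ?_
  rw [av3_prod (fun z => (z ^ e 0)⁻¹ * P0 z y.1) (fun z => (z ^ e 1)⁻¹ * P1 z y.2)
    (fun z => (z ^ e 2)⁻¹ * P2 z x.2) (M t.2), h0, h1, h2]

/-! ### The averages of `hh` -/

/-- `1` or `log`, with complex values. -/
noncomputable def XX (e : ℕ) : ArithmeticFunction ℂ := toC (if e = 0 then one else lg)

/-- `δ` or `Λ`, with complex values. -/
noncomputable def YY (e : ℕ) : ArithmeticFunction ℂ := toC (if e = 0 then 1 else La)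

/-- Scaled function. -/
noncomputable def scl (c : ℂ) (X : ArithmeticFunction ℂ) : ArithmeticFunction ℂ :=
  ⟨fun k => c * X k, by simp⟩

lemma scl_apply (c : ℂ) (X : ArithmeticFunction ℂ) (k : ℕ) : scl c X k = c * X k := rfl

lemma one_apply' {k : ℕ} (hk : k ≠ 0) : one k = 1 := by
  simp [one, ArithmeticFunction.natCoe_apply, ArithmeticFunction.zeta_apply, hk]

lemma pw_apply {k : ℕ} (hk : k ≠ 0) (a : ℂ) : pw a k = (k : ℂ) ^ (-a) := by
  show (if k = 0 then (0 : ℂ) else (k : ℂ) ^ (-a)) = _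
  rw [if_neg hk]

lemma pw_mul_cont (L : ℝ) (k : ℕ) : Continuous fun z : ℂ => (pw (z / L) * muC) k :=
  cont_mul (fun n => cont_pw (by fun_prop) n) (fun _ => continuous_const) k

lemma cavX (hCAV : CavStatement) {T : ℝ} (hT : 1 < T) {e : ℕ} (he : e ≤ 1) (k : ℕ) :
    cav (fun z => (z ^ e)⁻¹ * pw (z / Real.log T) k) =
      scl ((-(Real.log T : ℂ)⁻¹) ^ e) (XX e) k := by
  rw [scl_apply]
  rcases Nat.eq_zero_or_pos k with hk | hk
  · subst hk
    simp [cav]
  have hk0 : k ≠ 0 := hk.ne'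
  obtain ⟨h1, h2, -, -⟩ := hCAV T hT k hk0
  simp only [pw_apply hk0]
  interval_cases e
  · simp only [pow_zero, inv_one, one_mul, XX, if_true, toC_apply, one_apply' hk0]
    rw [h1]
    simp
  · simp only [pow_one, XX, one_ne_zero, if_false, toC_apply, lg, ArithmeticFunction.log_apply]
    rw [h2]
    push_cast
    ring

lemma cavY (hCAV : CavStatement) {T : ℝ} (hT : 1 < T) {e : ℕ} (he : e ≤ 1) (k : ℕ) :
    cav (fun z => (z ^ e)⁻¹ * (pw (z / Real.log T) * muC) k) =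
      scl ((-(Real.log T : ℂ)⁻¹) ^ e) (YY e) k := by
  rw [scl_apply]
  rcases Nat.eq_zero_or_pos k with hk | hk
  · subst hk
    simp [cav]
  have hk0 : k ≠ 0 := hk.ne'
  obtain ⟨-, -, h1, h2⟩ := hCAV T hT k hk0
  interval_cases e
  · simp only [pow_zero, inv_one, one_mul, YY, if_true, toC_apply]
    rw [h1]
    rcases eq_or_ne k 1 with h | h
    · subst h; simp
    · simp [ArithmeticFunction.one_apply_ne h]
  · simp only [pow_one, YY, one_ne_zero, if_false, toC_apply]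
    rw [h2]
    push_cast
    ring

/-- The convolution of the three averaged functions. -/
noncomputable def YX (e : Fin 3 → ℕ) : ArithmeticFunction ℂ := XX (e 0) * XX (e 1) * YY (e 2)

lemma av3_hh (hCAV : CavStatement) {T : ℝ} (hT : 1 < T) {e : Fin 3 → ℕ} (he : ∀ i, e i ≤ 1)
    (w : ℂ) (n : ℕ) : av3 (fun A => wA e A * hh (sc T A) w n) =
      (-(Real.log T : ℂ)⁻¹) ^ (∑ i, e i) * (YX e * muC.pmul (pw w)) n := by
  have h1 := av3_conv e (fun z => pw (z / Real.log T)) (fun z => pw (z / Real.log T))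
    (fun z => pw (z / Real.log T) * muC) _ _ _
    (fun k => cont_pw (by fun_prop) k) (fun k => cont_pw (by fun_prop) k)
    (fun k => pw_mul_cont _ k)
    (fun k => cavX hCAV hT (he 0) k) (fun k => cavX hCAV hT (he 1) k)
    (fun k => cavY hCAV hT (he 2) k) (muC.pmul (pw w)) n
  have h2 : ∀ A : Fin 3 → ℂ, hh (sc T A) w n = (((pw (A 0 / Real.log T) *
      pw (A 1 / Real.log T)) * (pw (A 2 / Real.log T) * muC)) * muC.pmul (pw w)) n := by
    intro A
    unfold hh sc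
    rw [mul_assoc (pw (A 0 / Real.log T) * pw (A 1 / Real.log T))]
  simp only [h2]
  rw [h1]
  have h3 := mul_scale2 (fun k => mul_scale2 (scl_apply ((-(Real.log T : ℂ)⁻¹) ^ e 0) (XX (e 0)))
    (scl_apply ((-(Real.log T : ℂ)⁻¹) ^ e 1) (XX (e 1))) k)
    (scl_apply ((-(Real.log T : ℂ)⁻¹) ^ e 2) (YY (e 2)))
  rw [mul_scale h3, YX, Fin.sum_univ_three, pow_add, pow_add]

lemma YX_ale (e : Fin 3 → ℕ) (th c1 c2 T : ℝ) :
    YX e * toC (bet th c1 c2 T) = toC (ale e th c1 c2 T) := by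
  unfold YX ale XX YY
  rw [toC_mul, toC_mul, toC_mul]
  ring

/-- The line integral of one term. -/
lemma line_term (hBL : BlStatement) {th c1 c2 T : ℝ} (hth : 0 < th) (hT : 1 < T)
    (Y : ArithmeticFunction ℂ) (n : ℕ) :
    Integrable (fun u : ℝ => PH th c1 c2 (ln u) * Complex.exp (th * ln u) *
      (Y * muC.pmul (pw (ln u / Real.log T))) n) ∧
    ((2 * Real.pi : ℝ) : ℂ)⁻¹ * ∫ u : ℝ, PH th c1 c2 (ln u) * Complex.exp (th * ln u) *
      (Y * muC.pmul (pw (ln u / Real.log T))) n = (Y * toC (bet th c1 c2 T)) n := by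
  have h1 : ∀ u : ℝ, PH th c1 c2 (ln u) * Complex.exp (th * ln u) *
      (Y * muC.pmul (pw (ln u / Real.log T))) n =
      ∑ x ∈ n.divisorsAntidiagonal, (Y x.1 * ((ArithmeticFunction.moebius x.2 : ℤ) : ℂ)) *
        (PH th c1 c2 (ln u) * Complex.exp (th * ln u) * (x.2 : ℂ) ^ (-(ln u / Real.log T))) := by
    intro u
    rw [ArithmeticFunction.mul_apply, Finset.mul_sum]
    refine Finset.sum_congr rfl fun x hx => ?_
    have hx2 : x.2 ≠ 0 := by
      rw [Nat.mem_divisorsAntidiagonal] at hx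
      intro h
      rw [h, mul_zero] at hx
      exact hx.2 hx.1.symm
    rw [ArithmeticFunction.pmul_apply, muC_apply, pw_apply hx2]
    ring
  have hi : ∀ x ∈ n.divisorsAntidiagonal, Integrable fun u : ℝ =>
      (Y x.1 * ((ArithmeticFunction.moebius x.2 : ℤ) : ℂ)) *
        (PH th c1 c2 (ln u) * Complex.exp (th * ln u) *
          (x.2 : ℂ) ^ (-(ln u / Real.log T))) := by
    intro x hx
    have hx2 : x.2 ≠ 0 := by
      rw [Nat.mem_divisorsAntidiagonal] at hx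
      intro h
      rw [h, mul_zero] at hx
      exact hx.2 hx.1.symm
    exact ((hBL th c1 c2 T hth hT x.2 hx2).1).const_mul _
  simp only [h1]
  refine ⟨integrable_finsetSum _ hi, ?_⟩
  rw [integral_finsetSum _ hi, ArithmeticFunction.mul_apply, Finset.mul_sum]
  refine Finset.sum_congr rfl fun x hx => ?_
  have hx2 : x.2 ≠ 0 := by
    rw [Nat.mem_divisorsAntidiagonal] at hx
    intro h
    rw [h, mul_zero] at hx
    exact hx.2 hx.1.symm
  have h3 : toC (bet th c1 c2 T) x.2 = (betf th c1 c2 T x.2 : ℂ) := rfl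
  rw [integral_const_mul, h3, (hBL th c1 c2 T hth hT x.2 hx2).2]
  ring

/-! ### The exchange -/

/-- The weight of the `n`-sum. -/
noncomputable def Xm (T : ℝ) (j m n : ℕ) : ℂ :=
  ((ramC m n * Real.log ((n : ℝ) / m) ^ j * GG T ((n : ℝ) / m) : ℝ) : ℂ)

lemma Xm_bound (hGM : GmStatement) {T : ℝ} (hT : 3 ≤ T) (j : ℕ) {m : ℕ} (hm : 0 < m) :
    ∃ B : ℝ, 0 ≤ B ∧ ∀ n : ℕ, (n : ℝ) ^ 5 * ‖Xm T j m n‖ ≤ B * (1 / (n : ℝ) ^ 2) := by
  refine ⟨(∑ d ∈ m.divisors, (d : ℝ)) * ((m : ℝ) ^ (7 : ℝ) * ((2 * Real.pi)⁻¹ *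
      ∫ y : ℝ, ‖Gm j T ((7 : ℝ) + y * I)‖)), ?_, fun n => ?_⟩
  · have : 0 ≤ ∫ y : ℝ, ‖Gm j T ((7 : ℝ) + y * I)‖ := integral_nonneg fun y => norm_nonneg _
    positivity
  rcases Nat.eq_zero_or_pos n with h | h
  · subst h; simp
  have hx : 0 < (n : ℝ) / m := by positivity
  have h2 := F_bound hGM j T 7 ((n : ℝ) / m) hT (by norm_num) hx
  have h3 := ramC_bound m n (by omega)
  have h4 : ‖Xm T j m n‖ ≤
      (∑ d ∈ m.divisors, (d : ℝ)) * (((n : ℝ) / m) ^ (-(7 : ℝ)) * ((2 * Real.pi)⁻¹ *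
      ∫ y : ℝ, ‖Gm j T ((7 : ℝ) + y * I)‖)) := by
    rw [Xm, Complex.norm_real, Real.norm_eq_abs, mul_assoc, abs_mul]
    exact mul_le_mul h3 h2 (abs_nonneg _) (Finset.sum_nonneg fun _ _ => by positivity)
  have h5 : ((n : ℝ) / m) ^ (-(7 : ℝ)) = (m : ℝ) ^ (7 : ℝ) * (1 / (n : ℝ) ^ 7) := by
    rw [Real.rpow_neg hx.le, Real.div_rpow (by positivity) (by positivity), inv_div]
    rw [div_eq_mul_one_div]
    congr 2
    norm_cast
  rw [h5] at h4
  calc (n : ℝ) ^ 5 * ‖Xm T j m n‖ ≤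
      (n : ℝ) ^ 5 * ((∑ d ∈ m.divisors, (d : ℝ)) * ((m : ℝ) ^ (7 : ℝ) * (1 / (n : ℝ) ^ 7) *
          ((2 * Real.pi)⁻¹ * ∫ y : ℝ, ‖Gm j T ((7 : ℝ) + y * I)‖))) := by gcongr
    _ = _ := by
      have hn0 : (n : ℝ) ≠ 0 := by positivity
      generalize ∫ y : ℝ, ‖Gm j T ((7 : ℝ) + y * I)‖ = J
      field_simp

lemma sum2 (B : ℝ) : Summable fun n : ℕ => B * (1 / (n : ℝ) ^ 2) :=
  (Real.summable_one_div_nat_pow.2 (by norm_num)).mul_left B

/-- The averaged coefficient. -/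
noncomputable def gg (T : ℝ) (e : Fin 3 → ℕ) (n : ℕ) (u : ℝ) : ℂ :=
  (-(Real.log T : ℂ)⁻¹) ^ (∑ i, e i) * (YX e * muC.pmul (pw (ln u / Real.log T))) n

lemma gg_cont (T : ℝ) (e : Fin 3 → ℕ) (n : ℕ) : Continuous (gg T e n) := by
  unfold gg
  refine continuous_const.mul (cont_mul (fun _ => continuous_const) (fun k => ?_) n)
  simp only [ArithmeticFunction.pmul_apply]
  refine continuous_const.mul (cont_pw ?_ k)
  have := ln_cont
  fun_prop

lemma lnL_re {T : ℝ} (hT : 3 ≤ T) (u : ℝ) : 0 ≤ (ln u / (Real.log T : ℂ)).re := by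
  have hl := log_ge_one hT
  rw [Complex.div_ofReal_re, ln_re]
  positivity

lemma hh_bd {T : ℝ} (hT : 3 ≤ T) {w : ℂ} (hw : 0 ≤ w.re) {A : Fin 3 → ℂ} (hA : A ∈ pd) (n : ℕ) :
    ‖hh (sc T A) w n‖ ≤ (n : ℝ) ^ 5 :=
  hh_bound (fun i => by linarith [sc_re hT hA i]) hw n

lemma gg_bound (hCAV : CavStatement) {T : ℝ} (hT : 3 ≤ T) {e : Fin 3 → ℕ} (he : ∀ i, e i ≤ 1)
    (n : ℕ) (u : ℝ) : ‖gg T e n u‖ ≤ 4 ^ (∑ i, e i) * (n : ℝ) ^ 5 := by
  unfold gg
  rw [← av3_hh hCAV (by linarith : 1 < T) he]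
  refine av3_bound fun A hA => ?_
  rw [norm_mul, wA_norm e hA]
  exact mul_le_mul_of_nonneg_left (hh_bd hT (lnL_re hT u) (to3_sub_pd hA) n) (by positivity)

section fixed

variable (hGM : GmStatement) (hCAV : CavStatement) (hBL : BlStatement) {th c1 c2 T : ℝ}
  (hth : 0 < th) (hT : 3 ≤ T) (j : ℕ) {e : Fin 3 → ℕ} (he : ∀ i, e i ≤ 1) {m : ℕ} (hm : 0 < m)

include hGM hT hm in
lemma inner_contOn {w : ℂ} (hw : 0 ≤ w.re) :
    ContinuousOn (fun A => ∑' n : ℕ, hh (sc T A) w n * Xm T j m n) to3 := by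
  obtain ⟨B, hB0, hB⟩ := Xm_bound hGM hT j hm
  refine continuousOn_tsum (u := fun n : ℕ => B * (1 / (n : ℝ) ^ 2))
    (fun n => ((cont_hh T _ n).mul continuous_const).continuousOn) (sum2 B) ?_
  intro n A hA
  rw [norm_mul]
  exact (mul_le_mul_of_nonneg_right (hh_bd hT hw (to3_sub_pd hA) n) (norm_nonneg _)).trans (hB n)

include hGM hCAV hT he hm in
/-- The average of the inner sum, for fixed `m`. -/
lemma inner_av (u : ℝ) :
    av3 (fun A => wA e A * ∑' n : ℕ, hh (sc T A) (ln u / Real.log T) n * Xm T j m n) =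
      ∑' n : ℕ, gg T e n u * Xm T j m n := by
  obtain ⟨B, hB0, hB⟩ := Xm_bound hGM hT j hm
  have h1 := av3_hasSum (f := fun n A => wA e A *
      (hh (sc T A) (ln u / Real.log T) n * Xm T j m n))
    (M := fun n : ℕ => (4 ^ (∑ i, e i) * B) * (1 / (n : ℝ) ^ 2))
    (fun n => (wA_contOn e).mul ((cont_hh T _ n).mul continuous_const).continuousOn)
    (fun n A hA => by
      rw [norm_mul, wA_norm e hA, norm_mul, mul_assoc]
      refine mul_le_mul_of_nonneg_left ?_ (by positivity)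
      exact (mul_le_mul_of_nonneg_right (hh_bd hT (lnL_re hT u) (to3_sub_pd hA) n)
        (norm_nonneg _)).trans (hB n)) (sum2 _)
  simp only [tsum_mul_left] at h1
  rw [← h1.tsum_eq]
  refine tsum_congr fun n => ?_
  have h2 : (fun A => wA e A * (hh (sc T A) (ln u / Real.log T) n * Xm T j m n)) =
      fun A => Xm T j m n * (wA e A * hh (sc T A) (ln u / Real.log T) n) := by
    funext A; ring
  rw [h2, av3_const_mul, av3_hh hCAV (by linarith : 1 < T) he, gg]
  ring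

include hGM hCAV hBL hth hT he hm in
/-- The line integral of the average, for fixed `m`. -/
lemma inner_line :
    Integrable (fun u : ℝ => PH th c1 c2 (ln u) * Complex.exp (th * ln u) *
      ∑' n : ℕ, gg T e n u * Xm T j m n) ∧
    ((2 * Real.pi : ℝ) : ℂ)⁻¹ * ∫ u : ℝ, PH th c1 c2 (ln u) * Complex.exp (th * ln u) *
      ∑' n : ℕ, gg T e n u * Xm T j m n =
      (-(Real.log T : ℂ)⁻¹) ^ (∑ i, e i) *
        ∑' n : ℕ, toC (ale e th c1 c2 T) n * Xm T j m n := by
  obtain ⟨B, hB0, hB⟩ := Xm_bound hGM hT j hm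
  obtain ⟨P, hP0, hP⟩ := PH_bound th c1 c2
  have hPi : Integrable (fun u : ℝ => PH th c1 c2 (ln u) * Complex.exp (th * ln u)) := by
    refine ((ln_rpow_int (r := 2) (by norm_num)).const_mul P).mono' ?_
      (Eventually.of_forall hP)
    exact ((PH_cont th c1 c2 hth.ne').mul (by have := ln_cont; fun_prop)).aestronglyMeasurable
  have hb : ∀ n u, ‖gg T e n u * Xm T j m n‖ ≤ (4 ^ (∑ i, e i) * B) * (1 / (n : ℝ) ^ 2) := by
    intro n u
    rw [norm_mul, mul_assoc]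
    calc ‖gg T e n u‖ * ‖Xm T j m n‖ ≤ (4 ^ (∑ i, e i) * (n : ℝ) ^ 5) * ‖Xm T j m n‖ := by
          gcongr
          exact gg_bound hCAV hT he n u
      _ = 4 ^ (∑ i, e i) * ((n : ℝ) ^ 5 * ‖Xm T j m n‖) := by ring
      _ ≤ _ := mul_le_mul_of_nonneg_left (hB n) (by positivity)
  have hsc : Continuous (fun u : ℝ => ∑' n : ℕ, gg T e n u * Xm T j m n) :=
    continuous_tsum (fun n => (gg_cont T e n).mul continuous_const) (sum2 _) hb
  have hsb : ∀ u : ℝ, ‖∑' n : ℕ, gg T e n u * Xm T j m n‖ ≤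
      ∑' n : ℕ, (4 ^ (∑ i, e i) * B) * (1 / (n : ℝ) ^ 2) := fun u =>
    tsum_of_norm_bounded (sum2 _).hasSum fun n => hb n u
  refine ⟨?_, ?_⟩
  · have h1 := hPi.bdd_mul (c := ∑' n : ℕ, (4 ^ (∑ i, e i) * B) * (1 / (n : ℝ) ^ 2))
      hsc.aestronglyMeasurable (Eventually.of_forall hsb)
    refine h1.congr (Eventually.of_forall fun u => ?_)
    simp only
    ring
  · have hfi : ∀ n : ℕ, Integrable (fun u : ℝ => PH th c1 c2 (ln u) * Complex.exp (th * ln u) *
        (gg T e n u * Xm T j m n)) := by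
      intro n
      have h1 := hPi.bdd_mul (c := (4 ^ (∑ i, e i) * B) * (1 / (n : ℝ) ^ 2))
        ((gg_cont T e n).mul continuous_const).aestronglyMeasurable
        (Eventually.of_forall (hb n))
      refine h1.congr (Eventually.of_forall fun u => ?_)
      simp only [Pi.mul_apply]
      ring
    have hfs : Summable fun n : ℕ => ∫ u : ℝ, ‖PH th c1 c2 (ln u) * Complex.exp (th * ln u) *
        (gg T e n u * Xm T j m n)‖ := by
      refine Summable.of_nonneg_of_le (fun n => integral_nonneg fun u => norm_nonneg _)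
        (fun n => ?_) ((sum2 (4 ^ (∑ i, e i) * B)).mul_right
          (∫ u : ℝ, ‖PH th c1 c2 (ln u) * Complex.exp (th * ln u)‖))
      rw [← integral_const_mul]
      refine integral_mono (hfi n).norm (hPi.norm.const_mul _) fun u => ?_
      simp only
      rw [norm_mul, mul_comm]
      exact mul_le_mul_of_nonneg_right (hb n u) (norm_nonneg _)
    have hex := (hasSum_integral_of_summable_integral_norm hfi hfs).tsum_eq
    have h2 : ∀ n : ℕ, ∫ u : ℝ, PH th c1 c2 (ln u) * Complex.exp (th * ln u) *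
        (gg T e n u * Xm T j m n) = ((2 * Real.pi : ℝ) : ℂ) *
          ((-(Real.log T : ℂ)⁻¹) ^ (∑ i, e i) * (toC (ale e th c1 c2 T) n * Xm T j m n)) := by
      intro n
      have h3 := (line_term hBL hth (by linarith : 1 < T) (YX e) n (c1 := c1) (c2 := c2)).2
      rw [YX_ale] at h3
      have hp : ((2 * Real.pi : ℝ) : ℂ) ≠ 0 := by
        exact_mod_cast (by positivity : (2 * Real.pi : ℝ) ≠ 0)
      rw [inv_mul_eq_iff_eq_mul₀ hp] at h3
      have h4 : (fun u : ℝ => PH th c1 c2 (ln u) * Complex.exp (th * ln u) *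
        (gg T e n u * Xm T j m n)) = fun u : ℝ => ((-(Real.log T : ℂ)⁻¹) ^ (∑ i, e i) *
          Xm T j m n) * (PH th c1 c2 (ln u) * Complex.exp (th * ln u) *
            (YX e * muC.pmul (pw (ln u / Real.log T))) n) := by
        funext u
        rw [gg]
        ring
      rw [h4, integral_const_mul, h3]
      ring
    simp only [h2] at hex
    have h5 : (fun u : ℝ => PH th c1 c2 (ln u) * Complex.exp (th * ln u) *
      ∑' n : ℕ, gg T e n u * Xm T j m n) = fun u : ℝ => ∑' n : ℕ,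
        PH th c1 c2 (ln u) * Complex.exp (th * ln u) * (gg T e n u * Xm T j m n) := by
      funext u
      rw [tsum_mul_left]
    rw [h5, ← hex, tsum_mul_left, tsum_mul_left]
    have hp : ((2 * Real.pi : ℝ) : ℂ) ≠ 0 := by
      exact_mod_cast (by positivity : (2 * Real.pi : ℝ) ≠ 0)
    rw [inv_mul_cancel_left₀ hp]

end fixed

end H28

open H28 H33 in
/-- Module R1. -/
theorem r1 (hBL : BlStatement) (hCAV : CavStatement) (hGM : GmStatement) : R1Statement := by
  intro th c1 c2 hth _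
  refine ⟨3, fun T hT j e he => ?_⟩
  have hL := log_ge_one hT
  -- the average of `RR`
  have hav : ∀ u : ℝ, (av3 fun A => wA e A * RR th c1 c2 T j (sc T A) (ln u / Real.log T)) =
      ∑ m ∈ Finset.Icc 1 ⌊T ^ th⌋₊, ((betf th c1 c2 T m / (m * (Nat.totient m : ℝ)) : ℝ) : ℂ) *
        ∑' n : ℕ, gg T e n u * Xm T j m n := by
    intro u
    have h1 : ∀ A : Fin 3 → ℂ, wA e A * RR th c1 c2 T j (sc T A) (ln u / Real.log T) =
        ∑ m ∈ Finset.Icc 1 ⌊T ^ th⌋₊,
          ((betf th c1 c2 T m / (m * (Nat.totient m : ℝ)) : ℝ) : ℂ) *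
            (wA e A * ∑' n : ℕ, hh (sc T A) (ln u / Real.log T) n * Xm T j m n) := by
      intro A
      rw [RR, Finset.mul_sum]
      refine Finset.sum_congr rfl fun m _ => ?_
      simp only [Xm]
      ring
    simp only [h1]
    rw [av3_finset_sum]
    · refine Finset.sum_congr rfl fun m hm => ?_
      rw [av3_const_mul, inner_av hGM hCAV hT j he (Finset.mem_Icc.1 hm).1 u]
    · intro m hm
      exact continuousOn_const.mul ((wA_contOn e).mul
        (inner_contOn hGM hT j (Finset.mem_Icc.1 hm).1 (lnL_re hT u)))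
  have hfun : (fun u : ℝ => PH th c1 c2 (ln u) * Complex.exp (th * ln u) *
      av3 fun A => wA e A * RR th c1 c2 T j (sc T A) (ln u / Real.log T)) =
      fun u : ℝ => ∑ m ∈ Finset.Icc 1 ⌊T ^ th⌋₊,
        ((betf th c1 c2 T m / (m * (Nat.totient m : ℝ)) : ℝ) : ℂ) *
          (PH th c1 c2 (ln u) * Complex.exp (th * ln u) *
            ∑' n : ℕ, gg T e n u * Xm T j m n) := by
    funext u
    rw [hav u, Finset.mul_sum]
    refine Finset.sum_congr rfl fun m _ => ?_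
    ring
  have hi : ∀ m ∈ Finset.Icc 1 ⌊T ^ th⌋₊, Integrable fun u : ℝ =>
      ((betf th c1 c2 T m / (m * (Nat.totient m : ℝ)) : ℝ) : ℂ) *
          (PH th c1 c2 (ln u) * Complex.exp (th * ln u) *
            ∑' n : ℕ, gg T e n u * Xm T j m n) := fun m hm =>
    (inner_line hGM hCAV hBL hth hT j he (Finset.mem_Icc.1 hm).1).1.const_mul _
  rw [hfun]
  refine ⟨integrable_finsetSum _ hi, ?_⟩
  rw [integral_finsetSum _ hi, Finset.mul_sum, Finset.mul_sum]
  unfold Psum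
  push_cast
  refine Finset.sum_congr rfl fun m hm => ?_
  have h2 := (inner_line (c1 := c1) (c2 := c2) hGM hCAV hBL hth hT j he
    (Finset.mem_Icc.1 hm).1).2
  rw [integral_const_mul]
  have h3 : (-(Real.log T : ℂ)) ^ (∑ i, e i) * (-(Real.log T : ℂ)⁻¹) ^ (∑ i, e i) = 1 := by
    rw [← mul_pow]
    have : (Real.log T : ℂ) ≠ 0 := by
      exact_mod_cast (by linarith : Real.log T ≠ 0)
    rw [neg_mul_neg, mul_inv_cancel₀ this, one_pow]
  have h4 : ∑' n : ℕ, toC (ale e th c1 c2 T) n * Xm T j m n =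
      ∑' n : ℕ, ((ale e th c1 c2 T n : ℂ) * (ramC m n : ℂ) * (Real.log ((n : ℝ) / m) : ℂ) ^ j *
        (GG T ((n : ℝ) / m) : ℂ)) := by
    refine tsum_congr fun n => ?_
    rw [toC_apply, Xm]
    push_cast
    ring
  rw [h4] at h2
  have h5 : (bet th c1 c2 T m : ℝ) = betf th c1 c2 T m := rfl
  calc (bet th c1 c2 T m : ℂ) / ((m : ℂ) * (Nat.totient m : ℂ)) *
        ∑' n : ℕ, ((ale e th c1 c2 T n : ℂ) * (ramC m n : ℂ) *
          (Real.log ((n : ℝ) / m) : ℂ) ^ j * (GG T ((n : ℝ) / m) : ℂ))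
      = ((-(Real.log T : ℂ)) ^ (∑ i, e i) * (-(Real.log T : ℂ)⁻¹) ^ (∑ i, e i)) *
        ((betf th c1 c2 T m : ℂ) / ((m : ℂ) * (Nat.totient m : ℂ)) *
        ∑' n : ℕ, ((ale e th c1 c2 T n : ℂ) * (ramC m n : ℂ) *
          (Real.log ((n : ℝ) / m) : ℂ) ^ j * (GG T ((n : ℝ) / m) : ℂ))) := by
        rw [h3, h5, one_mul]
    _ = (-(Real.log T : ℂ)) ^ (∑ i, e i) *
        ((betf th c1 c2 T m : ℂ) / ((m : ℂ) * (Nat.totient m : ℂ))) *
        ((-(Real.log T : ℂ)⁻¹) ^ (∑ i, e i) *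
        ∑' n : ℕ, ((ale e th c1 c2 T n : ℂ) * (ramC m n : ℂ) *
          (Real.log ((n : ℝ) / m) : ℂ) ^ j * (GG T ((n : ℝ) / m) : ℂ))) := by ring
    _ = _ := by
        rw [← h2]
        push_cast
        ring

end Pool.Agent.Lib.MP_6bc78b_nt.MS.P3
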