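import Pool.Agent.Lib.MP_6bc78b_nt.MS.P3.IfaceE

/-! Project MS, Part III, module SME (helper88): the Euler product of the `m`-sum. -/

set_option autoImplicit false

open Complex Filter Topology ArithmeticFunction

namespace Pool.Agent.Lib.MP_6bc78b_nt.MS.P3

namespace Sme

/-- Summability of a multiplicative function supported on squarefree numbers. -/
theorem summable_euler {f : ℕ → ℂ} (h0 : f 0 = 0) (h1 : f 1 = 1)
    (hmul : ∀ {m n : ℕ}, Nat.Coprime m n → f (m * n) = f m * f n)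
    (hpp : ∀ p : ℕ, p.Prime → ∀ e : ℕ, 2 ≤ e → f (p ^ e) = 0)
    (hs : Summable (fun p : Nat.Primes => ‖f p‖)) : Summable (fun n : ℕ => ‖f n‖) := by
  obtain ⟨g, hg⟩ : ∃ g : ℕ → ℝ, g = fun n => ‖f n‖ := ⟨_, rfl⟩
  have g0 : g 0 = 0 := by simp [hg, h0]
  have g1 : g 1 = 1 := by simp [hg, h1]
  have gm : ∀ {m n : ℕ}, Nat.Coprime m n → g (m * n) = g m * g n := by
    intro m n h
    simp [hg, hmul h]
  have gp : ∀ p : ℕ, p.Prime → ∀ e : ℕ, 2 ≤ e → g (p ^ e) = 0 := by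
    intro p hp e he
    simp [hg, hpp p hp e he]
  have gnn : ∀ n, 0 ≤ g n := fun n => by rw [hg]; exact norm_nonneg _
  have gs : Summable (fun p : Nat.Primes => g p) := by rw [hg]; exact hs
  rw [← hg]
  have hloc : ∀ p : ℕ, p.Prime → HasSum (fun e : ℕ => g (p ^ e)) (1 + g p) := by
    intro p hp
    have : HasSum (fun e : ℕ => g (p ^ e)) (∑ e ∈ Finset.range 2, g (p ^ e)) :=
      hasSum_sum_of_ne_finset_zero
        (fun e he => gp p hp e (by rw [Finset.mem_range] at he; omega))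
    simpa [Finset.sum_range_succ, g1] using this
  have hloc' : ∀ {p : ℕ}, p.Prime → Summable (fun e : ℕ => ‖g (p ^ e)‖) := by
    intro p hp
    have := (hloc p hp).summable
    refine this.congr fun e => ?_
    rw [Real.norm_of_nonneg (gnn _)]
  have hE := fun N : ℕ => (EulerProduct.summable_and_hasSum_smoothNumbers_prod_primesBelow_tsum
    g1 gm hloc' N).2
  obtain ⟨S, hS⟩ : ∃ S, S = ∑' p : Nat.Primes, g p := ⟨_, rfl⟩
  have hprod : ∀ N : ℕ, ∏ p ∈ N.primesBelow, ∑' e : ℕ, g (p ^ e) ≤ Real.exp S := by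
    intro N
    have e1 : ∏ p ∈ N.primesBelow, ∑' e : ℕ, g (p ^ e) = ∏ p ∈ N.primesBelow, (1 + g p) :=
      Finset.prod_congr rfl fun p hp => (hloc p (Nat.prime_of_mem_primesBelow hp)).tsum_eq
    rw [e1]
    calc ∏ p ∈ N.primesBelow, (1 + g p) ≤ ∏ p ∈ N.primesBelow, Real.exp (g p) :=
          Finset.prod_le_prod (fun p _ => by linarith [gnn p]) fun p _ => by
            rw [add_comm]; exact Real.add_one_le_exp _
      _ = Real.exp (∑ p ∈ N.primesBelow, g p) := (Real.exp_sum _ _).symm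
      _ ≤ Real.exp S := by
          apply Real.exp_le_exp.2
          have e2 : ∑ p ∈ N.primesBelow, g p =
              ∑ p ∈ N.primesBelow.attach, g p := (Finset.sum_attach _ _).symm
          let φ : {x // x ∈ N.primesBelow} → Nat.Primes :=
            fun p => ⟨p.1, Nat.prime_of_mem_primesBelow p.2⟩
          have hφ : Function.Injective φ := by
            intro p q h
            apply Subtype.ext
            exact congrArg (fun q : Nat.Primes => (q : ℕ)) h
          have e3 : ∑ p ∈ N.primesBelow.attach, g p =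
              ∑ q ∈ N.primesBelow.attach.map ⟨φ, hφ⟩, g q := by
            rw [Finset.sum_map]
            rfl
          rw [e2, e3, hS]
          exact gs.sum_le_tsum _ fun q _ => gnn _
  refine summable_of_sum_le gnn (c := Real.exp S) fun u => ?_
  obtain ⟨N, hN⟩ : ∃ N : ℕ, ∀ x ∈ u, x < N := ⟨u.sup id + 1, fun x hx =>
    Nat.lt_succ_of_le (Finset.le_sup (f := id) hx)⟩
  have hI : HasSum ((N.smoothNumbers).indicator g) (∏ p ∈ N.primesBelow, ∑' e : ℕ, g (p ^ e)) :=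
    hasSum_subtype_iff_indicator.1 (hE N)
  have e4 : ∑ x ∈ u, g x = ∑ x ∈ u, (N.smoothNumbers).indicator g x := by
    apply Finset.sum_congr rfl
    intro x hx
    rcases Nat.eq_zero_or_pos x with h | h
    · subst h
      rw [Set.indicator_of_notMem]
      · exact g0
      · intro h2
        exact Nat.ne_zero_of_mem_smoothNumbers h2 rfl
    · rw [Set.indicator_of_mem]
      exact Nat.mem_smoothNumbers_of_lt h (hN x hx)
  rw [e4]
  refine (sum_le_hasSum u (fun x _ => ?_) hI).trans (hprod N)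
  exact Set.indicator_nonneg (fun y _ => gnn y) x

theorem fm_mul {m n : ℕ} (h : Nat.Coprime m n) (s : ℂ) (a : Fin 3 → ℂ) (w : ℂ) :
    fm (m * n) s a w = fm m s a w * fm n s a w := by
  unfold fm
  rw [Nat.Coprime.primeFactors_mul h, Finset.prod_union h.disjoint_primeFactors]

theorem smt_mul {m n : ℕ} (h : Nat.Coprime m n) (s v w : ℂ) (a : Fin 3 → ℂ) :
    smt (m * n) s v w a = smt m s v w a * smt n s v w a := by
  unfold smt
  rw [fm_mul h, ArithmeticFunction.isMultiplicative_moebius.map_mul_of_coprime h]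
  push_cast
  rw [Complex.natCast_mul_natCast_cpow]
  ring

theorem smt_pp {p : ℕ} (hp : p.Prime) {e : ℕ} (he : 2 ≤ e) (s v w : ℂ) (a : Fin 3 → ℂ) :
    smt (p ^ e) s v w a = 0 := by
  unfold smt
  rw [ArithmeticFunction.moebius_apply_prime_pow hp (by omega), if_neg (by omega)]
  simp

theorem smt_prime {p : ℕ} (hp : p.Prime) (s v w : ℂ) (a : Fin 3 → ℂ) :
    smt p s v w a = -((p : ℂ) ^ (s - 1 - v) * fp p s a w) := by
  unfold smt fm
  rw [ArithmeticFunction.moebius_apply_prime hp, hp.primeFactors, Finset.prod_singleton]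
  push_cast
  ring

theorem summable_prime (h1 : FpbStatement) {s v w : ℂ} {a : Fin 3 → ℂ} (hR : Reg s v w a)
    (hv : 0 < v.re) (hw : 0 < w.re) (hsv : (s - 1).re < v.re) (hav : ∀ i, -(a i).re < v.re) :
    Summable (fun p : Nat.Primes => ‖smt p s v w a‖) := by
  obtain ⟨C, hC0, hC⟩ := h1
  obtain ⟨r1, r2, r3, r4⟩ := hR
  have e1 : |(s - 1).re| ≤ 1 / 100 := (Complex.abs_re_le_norm _).trans r1
  have e2 : ∀ i, |(a i).re| ≤ 1 / 100 := fun i => (Complex.abs_re_le_norm _).trans (r2 i)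
  rw [Complex.sub_re, Complex.one_re] at e1 hsv
  rw [abs_le] at e1 r3 r4
  have hs1 : Summable (fun p : Nat.Primes => C * (p : ℝ) ^ ((s - 1 - v).re - 196 / 100)) := by
    apply Summable.mul_left
    rw [Nat.Primes.summable_rpow]
    simp only [Complex.sub_re, Complex.one_re]
    linarith [e1.2, r3.1]
  have hs2 : Summable (fun p : Nat.Primes => (p : ℝ) ^ ((s - 2 - v).re)) := by
    rw [Nat.Primes.summable_rpow]
    simp only [Complex.sub_re, Complex.re_ofNat]
    linarith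
  have hs3 : Summable (fun p : Nat.Primes => ∑ i, (p : ℝ) ^ ((-1 - v - a i).re)) := by
    apply summable_sum
    intro i _
    rw [Nat.Primes.summable_rpow]
    simp only [Complex.sub_re, Complex.neg_re, Complex.one_re]
    linarith [hav i]
  have hs4 : Summable (fun p : Nat.Primes => (p : ℝ) ^ ((-1 - v).re)) := by
    rw [Nat.Primes.summable_rpow]
    simp only [Complex.sub_re, Complex.neg_re, Complex.one_re]
    linarith
  have hs5 : Summable (fun p : Nat.Primes => (p : ℝ) ^ ((-1 - v - w).re)) := by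
    rw [Nat.Primes.summable_rpow]
    simp only [Complex.sub_re, Complex.neg_re, Complex.one_re]
    linarith
  refine Summable.of_nonneg_of_le (fun p => norm_nonneg _) (fun p => ?_)
    ((((hs1.add hs2).add hs3).add hs4).add hs5)
  have hp := p.2
  have hp0 : (0 : ℝ) < (p : ℕ) := by exact_mod_cast hp.pos
  have hpc : ((p : ℕ) : ℂ) ≠ 0 := by exact_mod_cast hp.ne_zero
  have hb := (hC p hp (98 / 100) s w a (by norm_num) (by norm_num)
    (by linarith [e1.1]) (fun i => by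
      rw [Complex.add_re]
      linarith [e1.1, (abs_le.1 (e2 i)).1])
    (by rw [Complex.add_re]; linarith [e1.1])).2
  rw [smt_prime hp]
  obtain ⟨R, hRd⟩ : ∃ R, R = fp p s a w + ((p : ℕ) : ℂ)⁻¹ - ∑ i, ((p : ℕ) : ℂ) ^ (-s - a i) +
    ((p : ℕ) : ℂ) ^ (-s) + ((p : ℕ) : ℂ) ^ (-s - w) := ⟨_, rfl⟩
  rw [← hRd] at hb
  have hf : fp p s a w = R - ((p : ℕ) : ℂ)⁻¹ + ∑ i, ((p : ℕ) : ℂ) ^ (-s - a i) -
    ((p : ℕ) : ℂ) ^ (-s) - ((p : ℕ) : ℂ) ^ (-s - w) := by rw [hRd]; ring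
  have hN : ∀ z : ℂ, ‖((p : ℕ) : ℂ) ^ z‖ = ((p : ℕ) : ℝ) ^ z.re := fun z =>
    Complex.norm_natCast_cpow_of_pos hp.pos z
  have q2 : ((p : ℕ) : ℂ) ^ (s - 1 - v) * ((p : ℕ) : ℂ)⁻¹ = ((p : ℕ) : ℂ) ^ (s - 2 - v) := by
    rw [← Complex.cpow_neg_one, ← Complex.cpow_add _ _ hpc]
    congr 1
    ring
  have q3 : ((p : ℕ) : ℂ) ^ (s - 1 - v) * ∑ i, ((p : ℕ) : ℂ) ^ (-s - a i) =
      ∑ i, ((p : ℕ) : ℂ) ^ (-1 - v - a i) := by
    rw [Finset.mul_sum]
    apply Finset.sum_congr rfl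
    intro i _
    rw [← Complex.cpow_add _ _ hpc]
    congr 1
    ring
  have q4 : ((p : ℕ) : ℂ) ^ (s - 1 - v) * ((p : ℕ) : ℂ) ^ (-s) = ((p : ℕ) : ℂ) ^ (-1 - v) := by
    rw [← Complex.cpow_add _ _ hpc]
    congr 1
    ring
  have q5 : ((p : ℕ) : ℂ) ^ (s - 1 - v) * ((p : ℕ) : ℂ) ^ (-s - w) =
      ((p : ℕ) : ℂ) ^ (-1 - v - w) := by
    rw [← Complex.cpow_add _ _ hpc]
    congr 1
    ring
  have hexp : ((p : ℕ) : ℂ) ^ (s - 1 - v) * fp p s a w =
      ((p : ℕ) : ℂ) ^ (s - 1 - v) * R - ((p : ℕ) : ℂ) ^ (s - 2 - v) +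
      ∑ i, ((p : ℕ) : ℂ) ^ (-1 - v - a i) - ((p : ℕ) : ℂ) ^ (-1 - v) -
      ((p : ℕ) : ℂ) ^ (-1 - v - w) := by
    rw [← q2, ← q3, ← q4, ← q5, hf]
    ring
  rw [norm_neg, hexp]
  have b1 : ‖((p : ℕ) : ℂ) ^ (s - 1 - v) * R‖ ≤
      C * ((p : ℕ) : ℝ) ^ ((s - 1 - v).re - 196 / 100) := by
    rw [norm_mul, hN]
    calc ((p : ℕ) : ℝ) ^ (s - 1 - v).re * ‖R‖
        ≤ ((p : ℕ) : ℝ) ^ (s - 1 - v).re * (C * ((p : ℕ) : ℝ) ^ (-(2 * (98 / 100 : ℝ)))) :=
          mul_le_mul_of_nonneg_left hb (by positivity)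
      _ = C * (((p : ℕ) : ℝ) ^ (s - 1 - v).re * ((p : ℕ) : ℝ) ^ (-(2 * (98 / 100 : ℝ)))) := by
          ring
      _ = _ := by
          rw [← Real.rpow_add hp0]
          congr 2
          ring
  have b3 : ‖∑ i, ((p : ℕ) : ℂ) ^ (-1 - v - a i)‖ ≤
      ∑ i, ((p : ℕ) : ℝ) ^ ((-1 - v - a i).re) :=
    (norm_sum_le _ _).trans (le_of_eq (Finset.sum_congr rfl fun i _ => hN _))
  have b2 := hN (s - 2 - v)
  have b4 := hN (-1 - v)
  have b5 := hN (-1 - v - w)
  calc _ ≤ ‖((p : ℕ) : ℂ) ^ (s - 1 - v) * R‖ + ‖((p : ℕ) : ℂ) ^ (s - 2 - v)‖ +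
        ‖∑ i, ((p : ℕ) : ℂ) ^ (-1 - v - a i)‖ + ‖((p : ℕ) : ℂ) ^ (-1 - v)‖ +
        ‖((p : ℕ) : ℂ) ^ (-1 - v - w)‖ := by
        refine (norm_sub_le _ _).trans ?_
        gcongr
        refine (norm_sub_le _ _).trans ?_
        gcongr
        refine (norm_add_le _ _).trans ?_
        gcongr
        exact norm_sub_le _ _
    _ ≤ _ := by
        rw [b2, b4, b5]
        gcongr

end Sme

theorem sme (h1 : FpbStatement) (h2 : AabStatement) : SmeStatement := by
  intro s v w a hR hv hw hsv hav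
  obtain ⟨C, hC0, hC⟩ := h2
  have hm := (hC s v w a hR).2.1
  have hf1 : smt 1 s v w a = 1 := by simp [smt, fm]
  have hf0 : smt 0 s v w a = 0 := by simp [smt]
  have hsp := Sme.summable_prime h1 hR hv hw hsv hav
  have hsum : Summable (fun m : ℕ => ‖smt m s v w a‖) :=
    Sme.summable_euler (f := fun m => smt m s v w a) hf0 hf1
      (fun h => Sme.smt_mul h s v w a) (fun p hp e he => Sme.smt_pp hp he s v w a) hsp
  refine ⟨hsum, ?_⟩
  have hE := EulerProduct.eulerProduct_hasProd (f := fun m => smt m s v w a) hf1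
    (fun h => Sme.smt_mul h s v w a) hsum hf0
  have hloc : ∀ p : Nat.Primes, ∑' e : ℕ, smt ((p : ℕ) ^ e) s v w a =
      1 - ((p : ℕ) : ℂ) ^ (s - 1 - v) * fp p s a w := by
    intro p
    have : HasSum (fun e : ℕ => smt ((p : ℕ) ^ e) s v w a)
        (∑ e ∈ Finset.range 2, smt ((p : ℕ) ^ e) s v w a) :=
      hasSum_sum_of_ne_finset_zero (fun e he => Sme.smt_pp p.2
        (by rw [Finset.mem_range] at he; omega) s v w a)
    rw [this.tsum_eq, Finset.sum_range_succ, Finset.sum_range_one, pow_zero, pow_one, hf1,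
      Sme.smt_prime p.2]
    ring
  simp only [hloc] at hE
  have hAA := hm.hasProd
  obtain ⟨r1, r2, r3, r4⟩ := hR
  rw [Complex.sub_re, Complex.one_re] at hsv
  have z1 : 1 < (1 + v).re := by simp only [Complex.add_re, Complex.one_re]; linarith
  have z2 : 1 < (1 + v + w).re := by simp only [Complex.add_re, Complex.one_re]; linarith
  have z3 : 1 < (2 - s + v).re := by
    simp only [Complex.add_re, Complex.sub_re, Complex.re_ofNat]; linarith
  have z4 : ∀ i, 1 < (1 + v + a i).re := fun i => by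
    simp only [Complex.add_re, Complex.one_re]; linarith [hav i]
  have p1 := riemannZeta_eulerProduct_hasProd z1
  have p2 := riemannZeta_eulerProduct_hasProd z2
  have p3 := riemannZeta_eulerProduct_hasProd z3
  have p4 := fun i => riemannZeta_eulerProduct_hasProd (z4 i)
  have p4' : HasProd (fun p : Nat.Primes => ∏ i, (1 - ((p : ℕ) : ℂ) ^ (-(1 + v + a i)))⁻¹)
      (∏ i, riemannZeta (1 + v + a i)) := hasProd_prod fun i _ => p4 i
  have left := hE.mul p4'
  have right := ((p1.mul p2).mul p3).mul hAA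
  have hne : ∀ (p : Nat.Primes) (z : ℂ), 1 < z.re → 1 - ((p : ℕ) : ℂ) ^ (-z) ≠ 0 := by
    intro p z hz h
    have h5 : ((p : ℕ) : ℂ) ^ (-z) = 1 := (sub_eq_zero.1 h).symm
    have h6 := Complex.norm_natCast_cpow_of_pos p.2.pos (-z)
    rw [h5, norm_one] at h6
    have h7 : ((p : ℕ) : ℝ) ^ (-z).re < 1 := by
      apply Real.rpow_lt_one_of_one_lt_of_neg
      · exact_mod_cast p.2.one_lt
      · rw [Complex.neg_re]; linarith
    linarith
  have heq : (fun p : Nat.Primes => (1 - ((p : ℕ) : ℂ) ^ (s - 1 - v) * fp p s a w) *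
      ∏ i, (1 - ((p : ℕ) : ℂ) ^ (-(1 + v + a i)))⁻¹) =
      fun p : Nat.Primes => (1 - ((p : ℕ) : ℂ) ^ (-(1 + v)))⁻¹ *
        (1 - ((p : ℕ) : ℂ) ^ (-(1 + v + w)))⁻¹ * (1 - ((p : ℕ) : ℂ) ^ (-(2 - s + v)))⁻¹ *
        AAp p s v w a := by
    funext p
    have n1 := hne p _ z1
    have n2 := hne p _ z2
    have n3 := hne p _ z3
    unfold AAp
    rw [show (-1 - v : ℂ) = -(1 + v) by ring, show (-(1 + v) - w : ℂ) = -(1 + v + w) by ring,
      show (-2 + s - v : ℂ) = -(2 - s + v) by ring]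
    have e5 : ∏ i, (1 - ((p : ℕ) : ℂ) ^ (-(1 + v) - a i)) =
        ∏ i, (1 - ((p : ℕ) : ℂ) ^ (-(1 + v + a i))) :=
      Finset.prod_congr rfl fun i _ => by
        rw [show (-(1 + v) - a i : ℂ) = -(1 + v + a i) by ring]
    rw [e5, Finset.prod_inv_distrib, div_eq_mul_inv]
    field_simp
  rw [heq] at left
  have huniq := left.unique right
  have hz : ∏ i, riemannZeta (1 + v + a i) ≠ 0 :=
    Finset.prod_ne_zero_iff.2 fun i _ => riemannZeta_ne_zero_of_one_lt_re (z4 i)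
  have h8 : SM s v w a * ∏ i, riemannZeta (1 + v + a i) =
      riemannZeta (1 + v) * riemannZeta (1 + v + w) * riemannZeta (2 - s + v) * AA s v w a :=
    huniq
  rw [div_mul_eq_mul_div, eq_div_iff hz, h8]

end Pool.Agent.Lib.MP_6bc78b_nt.MS.P3
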