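import Pool.Agent.Lib.MP_6bc78b_nt.MS.P3.Iface
import Pool.Agent.Lib.MP_6bc78b_nt.MS.P3.H23.ZR
import Pool.Agent.Lib.MP_6bc78b_nt.H11.LogZeta

/-! ZB: zeta between small powers to the right of 7/10, under RH. -/

set_option autoImplicit false

open Complex Filter Topology ArithmeticFunction

namespace Pool.Agent.Lib.MP_6bc78b_nt.MS.P3

namespace ZBH

theorem zeta_ne (hRH : RiemannHypothesis) {z : ℂ} (h1 : 1 / 2 < z.re) (h2 : z.im ≠ 0) :
    riemannZeta z ≠ 0 := by
  intro h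
  have h3 := hRH z h (by
    rintro ⟨n, hn⟩
    have := congrArg Complex.im hn
    simp at this
    exact h2 this) (by
    rintro rfl
    simp at h2)
  linarith

end ZBH

open ZBH in
/-- ZB. -/
theorem zb (hZR : ZrStatement) : ZbStatement := by
  intro hRH ε hε
  obtain ⟨hz1, hz2, hz3, _, hz5, _⟩ := hZR
  obtain ⟨T0, hT0, hbig⟩ := Pool.Agent.Lib.MP_6bc78b_nt.H11.log_zeta_small (σ₀ := 1 / 2) (δ := 1 / 5) (ε := ε) le_rfl
    (by norm_num) (by norm_num) (by norm_num) hε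
  -- the compact part
  set K : Set ℂ := {s : ℂ | s.re ∈ Set.Icc (7 / 10 : ℝ) 3 ∧ s.im ∈ Set.Icc (-T0) T0} with hK
  have hKc : IsCompact K := by
    have h1 : K = (Set.Icc (7 / 10 : ℝ) 3) ×ℂ (Set.Icc (-T0) T0) := rfl
    rw [h1]
    exact isCompact_Icc.reProdIm isCompact_Icc
  have hKne : K.Nonempty := ⟨1, by
    constructor
    · norm_num
    · simp; linarith⟩
  have hcont : ContinuousOn (fun s => ‖zr s‖) K := (hz1.continuous.norm).continuousOn
  obtain ⟨sm, hsm, hmin⟩ := hKc.exists_isMinOn hKne hcont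
  obtain ⟨sM, _, hmax⟩ := hKc.exists_isMaxOn hKne hcont
  set m : ℝ := ‖zr sm‖ with hm
  set M : ℝ := ‖zr sM‖ with hM
  have hm0 : 0 < m := norm_pos_iff.2 (hz5 hRH sm (by
    have := hsm.1.1
    linarith))
  have hM0 : 0 ≤ M := norm_nonneg _
  refine ⟨1 + M + (T0 + 4) / m, by positivity, ?_⟩
  intro s hs1 hs2 hs3
  have hn0 : 0 < ‖s - 1‖ := norm_pos_iff.2 (sub_ne_zero.2 hs3)
  have hmin0 : 0 < min ‖s - 1‖ 1 := lt_min hn0 one_pos
  have hb : 1 ≤ (1 + |s.im|) ^ ε :=
    Real.one_le_rpow (by linarith [abs_nonneg s.im]) hε.le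
  have hq : 0 ≤ (T0 + 4) / m := by positivity
  rcases le_or_gt T0 |s.im| with h | h
  · -- large imaginary part
    have hv0 : 0 < |s.im| := by linarith
    obtain ⟨h1, h2⟩ := hbig s.im h (fun z hz1' hz2' => zeta_ne hRH hz2' (by
      intro h3
      rw [h3, zero_sub, abs_neg] at hz1'
      linarith)) s rfl (by linarith) hs2
    have hexp : Real.exp (ε * Real.log |s.im|) = |s.im| ^ ε := by
      rw [Real.rpow_def_of_pos hv0, mul_comm]
    have h3 : |s.im| ^ ε ≤ (1 + |s.im|) ^ ε :=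
      Real.rpow_le_rpow hv0.le (by linarith) hε.le
    have hlarge : 1 ≤ ‖s - 1‖ := by
      have := abs_im_le_norm (s - 1)
      rw [sub_im, one_im, sub_zero] at this
      linarith
    rw [min_eq_right hlarge]
    constructor
    · rw [mul_one]
      calc ‖riemannZeta s‖ ≤ |s.im| ^ ε := by rw [← hexp]; exact h2
        _ ≤ (1 + |s.im|) ^ ε := h3
        _ = 1 * (1 + |s.im|) ^ ε := by ring
        _ ≤ (1 + M + (T0 + 4) / m) * (1 + |s.im|) ^ ε := by
          gcongr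
          linarith
    · have h4 : 1 ≤ |s.im| ^ ε * ‖riemannZeta s‖ := by
        have h5 : Real.exp (-(ε * Real.log |s.im|)) = (|s.im| ^ ε)⁻¹ := by
          rw [Real.exp_neg, hexp]
        rw [h5] at h1
        have h6 : 0 < |s.im| ^ ε := by positivity
        rwa [inv_le_iff_one_le_mul₀ h6, mul_comm] at h1
      calc 1 ≤ |s.im| ^ ε * ‖riemannZeta s‖ := h4
        _ ≤ (1 + |s.im|) ^ ε * ‖riemannZeta s‖ := by gcongr
        _ = 1 * (1 + |s.im|) ^ ε * 1 * ‖riemannZeta s‖ := by ring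
        _ ≤ (1 + M + (T0 + 4) / m) * (1 + |s.im|) ^ ε * 1 * ‖riemannZeta s‖ := by
          gcongr
          linarith
  · -- compact part
    have hsK : s ∈ K := ⟨⟨hs1, hs2⟩, (abs_le.1 h.le)⟩
    have h1 : m ≤ ‖zr s‖ := hmin hsK
    have h2 : ‖zr s‖ ≤ M := hmax hsK
    have h3 : ‖riemannZeta s‖ * ‖s - 1‖ = ‖zr s‖ := by
      rw [hz3 s hs3, norm_div, div_mul_cancel₀ _ hn0.ne']
    have h4 : ‖s - 1‖ ≤ T0 + 4 := by
      calc ‖s - 1‖ ≤ |(s - 1).re| + |(s - 1).im| := norm_le_abs_re_add_abs_im _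
        _ ≤ 2 + T0 := by
          rw [sub_re, one_re, sub_im, one_im, sub_zero]
          have : |s.re - 1| ≤ 2 := by rw [abs_le]; constructor <;> linarith
          linarith
        _ ≤ T0 + 4 := by linarith
    constructor
    · calc ‖riemannZeta s‖ * min ‖s - 1‖ 1 ≤ ‖riemannZeta s‖ * ‖s - 1‖ := by
            gcongr
            exact min_le_left _ _
        _ = ‖zr s‖ := h3
        _ ≤ M * 1 := by rw [mul_one]; exact h2
        _ ≤ M * (1 + |s.im|) ^ ε := by gcongr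
        _ ≤ (1 + M + (T0 + 4) / m) * (1 + |s.im|) ^ ε := by
          gcongr
          linarith
    · have h5 : m ≤ (T0 + 4) * (min ‖s - 1‖ 1 * ‖riemannZeta s‖) := by
        have h6 : ‖s - 1‖ ≤ (T0 + 4) * min ‖s - 1‖ 1 := by
          rcases le_total ‖s - 1‖ 1 with h7 | h7
          · rw [min_eq_left h7]
            nlinarith
          · rw [min_eq_right h7, mul_one]
            exact h4
        calc m ≤ ‖zr s‖ := h1
          _ = ‖riemannZeta s‖ * ‖s - 1‖ := h3.symm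
          _ ≤ ‖riemannZeta s‖ * ((T0 + 4) * min ‖s - 1‖ 1) := by gcongr
          _ = _ := by ring
      have h6 : 1 ≤ (T0 + 4) / m * (min ‖s - 1‖ 1 * ‖riemannZeta s‖) := by
        rw [div_mul_eq_mul_div, le_div_iff₀ hm0, one_mul]
        exact h5
      have h7 : 0 ≤ min ‖s - 1‖ 1 * ‖riemannZeta s‖ := by positivity
      calc 1 ≤ (T0 + 4) / m * (min ‖s - 1‖ 1 * ‖riemannZeta s‖) := h6
        _ = (T0 + 4) / m * 1 * (min ‖s - 1‖ 1 * ‖riemannZeta s‖) := by ring
        _ ≤ (1 + M + (T0 + 4) / m) * (1 + |s.im|) ^ ε *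
            (min ‖s - 1‖ 1 * ‖riemannZeta s‖) := by
          gcongr
          linarith
        _ = _ := by ring

end Pool.Agent.Lib.MP_6bc78b_nt.MS.P3
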