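import Pool.Agent.Lib.MP_6bc78b_nt.MS.P3.H97.Asm
import Pool.Agent.Lib.MP_6bc78b_nt.MS.P3.H38.BL
import Pool.Agent.Lib.MP_6bc78b_nt.MS.P3.H17.Cav
import Pool.Agent.Lib.MP_6bc78b_nt.MS.P3.H58.EV
import Pool.Agent.Lib.MP_6bc78b_nt.MS.P3.H34.Kb
import Pool.Agent.Lib.MP_6bc78b_nt.MS.P3.H74.KC
import Pool.Agent.Lib.MP_6bc78b_nt.MS.P3.LIM
import Pool.Agent.Lib.MP_6bc78b_nt.MS.P3.H18.MJ
import Pool.Agent.Lib.MP_6bc78b_nt.MS.P3.H84.NB
import Pool.Agent.Lib.MP_6bc78b_nt.MS.P3.H33.R2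
import Pool.Agent.Lib.MP_6bc78b_nt.MS.P3.H2.R3
import Pool.Agent.Lib.MP_6bc78b_nt.MS.P3.H62.R4
import Pool.Agent.Lib.MP_6bc78b_nt.MS.P3.H62.SQ
import Pool.Agent.Lib.MP_6bc78b_nt.MS.P3.H40.SW
import Pool.Agent.Lib.MP_6bc78b_nt.MS.P3.H23.ZR
import Pool.Agent.Lib.MP_6bc78b_nt.MS.P3.H6.GmD
import Pool.Agent.Lib.MP_6bc78b_nt.MS.P3.CID
import Pool.Agent.Lib.MP_6bc78b_nt.MS.P3.FPB
import Pool.Agent.Lib.MP_6bc78b_nt.MS.P3.AAB
import Pool.Agent.Lib.MP_6bc78b_nt.MS.P3.AAL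
import Pool.Agent.Lib.MP_6bc78b_nt.MS.P3.SME
import Pool.Agent.Lib.MP_6bc78b_nt.MS.P3.ZB
import Pool.Agent.Lib.MP_6bc78b_nt.MS.P3.H34.Kl
import Pool.Agent.Lib.MP_6bc78b_nt.MS.P3.R1

/-! Project MS, Part III: the statement LVV. -/

set_option autoImplicit false

namespace Pool.Agent.Lib.MP_6bc78b_nt.MS.P3

/-- LVV, under the Riemann hypothesis. -/
theorem lvvF (hRH : RiemannHypothesis) : LVVStatement := by
  have hbl : BlStatement := H38.bl H58.lap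
  have haab : AabStatement := aab fpb
  have haal : AalStatement := aal haab
  have hsme : SmeStatement := sme fpb haab
  have hzb : ZbStatement := zb H23.zr
  have hr4 : R4Statement := H62.r4 hbl hsme
  have hkc : KcStatement := H74.kc hRH H23.zr gm
  have hkb : KbStatement := H34.kb hRH hr4 hsme haab hzb gm H18.mj
  have hkl : KlStatement := H34.kl hRH hr4 hsme haal haab H23.zr hzb gm H18.mj
  have hlim : LimStatement := lim hkb hkl hkc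
  have hr2 : R2Statement := H33.r2 cid gm
  have hr3 : R3Statement :=
    H2.r3 hRH H23.zr hzb gm (H84.nb fpb) hr2 H62.sq H40.sw hkc
  exact H97.lvv (r1 hbl H17.cavS gm) hr3 hlim H58.ev

end Pool.Agent.Lib.MP_6bc78b_nt.MS.P3
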