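import Pool.Agent.Lib.MP_6bc78b_nt.MS.P3.IfaceE

/-! Project MS, Part III, module AAL: continuity of the correction factor, and its value
at the origin. -/

set_option autoImplicit false

open Complex Filter Topology ArithmeticFunction

namespace Pool.Agent.Lib.MP_6bc78b_nt.MS.P3

namespace AALH

/-- The parameter space. -/
abbrev Q := ℂ × ℂ × ℂ × (Fin 3 → ℂ)

/-- The region, as a set. -/
def R : Set Q := {q | Reg q.1 q.2.1 q.2.2.1 q.2.2.2}

lemma norm_pow_lt {p : ℕ} (hp : p.Prime) {z : ℂ} (hz : z.re < 0) : ‖(p : ℂ) ^ z‖ < 1 := by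
  rw [Complex.norm_natCast_cpow_of_pos hp.pos]
  exact Real.rpow_lt_one_of_one_lt_of_neg (by exact_mod_cast hp.one_lt) hz

lemma one_sub_ne {p : ℕ} (hp : p.Prime) {z : ℂ} (hz : z.re < 0) : 1 - (p : ℂ) ^ z ≠ 0 := by
  intro h
  have h1 := norm_pow_lt hp hz
  rw [← sub_eq_zero.1 h, norm_one] at h1
  exact lt_irrefl _ h1

lemma re_bounds {s v w : ℂ} {a : Fin 3 → ℂ} (h : Reg s v w a) :
    99 / 100 ≤ s.re ∧ (∀ i, -(1 / 100) ≤ (a i).re) ∧ -(1 / 100) ≤ v.re ∧ -(1 / 100) ≤ w.re := by
  obtain ⟨h1, h2, h3, h4⟩ := h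
  refine ⟨?_, fun i => ?_, ?_, ?_⟩
  · have := (abs_le.1 ((Complex.abs_re_le_norm (s - 1)).trans h1)).1
    rw [Complex.sub_re, Complex.one_re] at this
    linarith
  · exact (abs_le.1 ((Complex.abs_re_le_norm (a i)).trans (h2 i))).1
  · exact (abs_le.1 h3).1
  · exact (abs_le.1 h4).1

lemma cont_fp {p : ℕ} (hp : p.Prime) :
    ContinuousOn (fun q : Q => fp p q.1 q.2.2.2 q.2.2.1) R := by
  have hp0 : (p : ℂ) ≠ 0 := by exact_mod_cast hp.ne_zero
  unfold fp hL
  refine ContinuousOn.sub continuousOn_const (ContinuousOn.mul continuousOn_const ?_)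
  refine ContinuousOn.div ?_ ?_ ?_
  · refine Continuous.continuousOn ?_
    refine continuous_finsetProd _ fun i _ => ?_
    refine continuous_const.sub ?_
    refine Continuous.const_cpow (by fun_prop) (Or.inl hp0)
  · refine Continuous.continuousOn ?_
    refine Continuous.mul (continuous_const.sub ?_) (continuous_const.sub ?_)
    · exact Continuous.const_cpow (by fun_prop) (Or.inl hp0)
    · exact Continuous.const_cpow (by fun_prop) (Or.inl hp0)
  · intro q hq
    obtain ⟨h1, h2, h3, h4⟩ := re_bounds hq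
    refine mul_ne_zero (one_sub_ne hp ?_) (one_sub_ne hp ?_)
    · rw [Complex.neg_re]; linarith
    · rw [Complex.sub_re, Complex.neg_re]; linarith

lemma cont_AAp {p : ℕ} (hp : p.Prime) :
    ContinuousOn (fun q : Q => AAp p q.1 q.2.1 q.2.2.1 q.2.2.2) R := by
  have hp0 : (p : ℂ) ≠ 0 := by exact_mod_cast hp.ne_zero
  unfold AAp
  refine ContinuousOn.div ?_ ?_ ?_
  · refine ContinuousOn.mul (ContinuousOn.mul (ContinuousOn.mul ?_ ?_) ?_) ?_
    · refine continuousOn_const.sub (ContinuousOn.mul ?_ (cont_fp hp))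
      exact (Continuous.const_cpow (by fun_prop) (Or.inl hp0)).continuousOn
    · exact (continuous_const.sub
        (Continuous.const_cpow (by fun_prop) (Or.inl hp0))).continuousOn
    · exact (continuous_const.sub
        (Continuous.const_cpow (by fun_prop) (Or.inl hp0))).continuousOn
    · exact (continuous_const.sub
        (Continuous.const_cpow (by fun_prop) (Or.inl hp0))).continuousOn
  · refine Continuous.continuousOn ?_
    refine continuous_finsetProd _ fun i _ => ?_
    refine continuous_const.sub ?_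
    exact Continuous.const_cpow (by fun_prop) (Or.inl hp0)
  · intro q hq
    obtain ⟨h1, h2, h3, h4⟩ := re_bounds hq
    refine Finset.prod_ne_zero_iff.2 fun i _ => one_sub_ne hp ?_
    have := h2 i
    simp only [Complex.sub_re, Complex.neg_re, Complex.one_re]
    linarith

lemma isClosed_R : IsClosed R := by
  have e : R = {q : Q | ‖q.1 - 1‖ ≤ 1 / 100} ∩ ((⋂ i, {q : Q | ‖q.2.2.2 i‖ ≤ 1 / 100}) ∩
      ({q : Q | |q.2.1.re| ≤ 1 / 100} ∩ {q : Q | |q.2.2.1.re| ≤ 1 / 100})) := by
    ext q
    simp only [R, Reg, Set.mem_ofPred_eq, Set.mem_inter_iff, Set.mem_iInter]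
  rw [e]
  refine IsClosed.inter ?_ (IsClosed.inter (isClosed_iInter fun i => ?_) (IsClosed.inter ?_ ?_))
  · exact isClosed_le (by fun_prop) continuous_const
  · exact isClosed_le (by fun_prop) continuous_const
  · refine isClosed_le ?_ continuous_const
    exact (Complex.continuous_re.comp (continuous_fst.comp continuous_snd)).abs
  · refine isClosed_le ?_ continuous_const
    exact (Complex.continuous_re.comp
      (continuous_fst.comp (continuous_snd.comp continuous_snd))).abs

lemma contOn_compact (h : AabStatement) {K : Set Q} (hK : IsCompact K) (hKR : K ⊆ R) :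
    ContinuousOn (fun q : Q => AA q.1 q.2.1 q.2.2.1 q.2.2.2) K := by
  obtain ⟨C, hC, h⟩ := h
  have hu : Summable (fun p : Nat.Primes => C * (p : ℝ) ^ (-(3 / 2 : ℝ))) := by
    refine Summable.mul_left C (Nat.Primes.summable_rpow.2 (by norm_num))
  have hprod := Summable.hasProdUniformlyOn_one_add (R := ℂ) (K := K)
    (f := fun (p : Nat.Primes) (q : Q) => AAp p q.1 q.2.1 q.2.2.1 q.2.2.2 - 1) hK hu
    (Filter.Eventually.of_forall fun p q hq => (h _ _ _ _ (hKR hq)).1 p p.2)
    (fun p => (((cont_AAp p.2).mono hKR).sub continuousOn_const))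
  have hT := hprod.tendstoUniformlyOn
  have e : (fun q : Q => AA q.1 q.2.1 q.2.2.1 q.2.2.2) =
      fun q : Q => ∏' p : Nat.Primes, (1 + (AAp p q.1 q.2.1 q.2.2.1 q.2.2.2 - 1)) := by
    funext q
    simp only [AA, add_sub_cancel]
  rw [e]
  refine hT.continuousOn (Filter.Frequently.of_forall fun S => ?_)
  refine continuousOn_finsetProd _ fun p _ => ?_
  simp only [add_sub_cancel]
  exact (cont_AAp p.2).mono hKR

lemma contOn (h : AabStatement) :
    ContinuousOn (fun q : Q => AA q.1 q.2.1 q.2.2.1 q.2.2.2) R := by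
  intro q hq
  have hK : IsCompact (R ∩ Metric.closedBall q 1) :=
    (isCompact_closedBall q 1).inter_left isClosed_R
  have h1 := contOn_compact h hK Set.inter_subset_left q
    ⟨hq, Metric.mem_closedBall_self zero_le_one⟩
  refine h1.mono_of_mem_nhdsWithin ?_
  exact inter_mem_nhdsWithin R (Metric.closedBall_mem_nhds q one_pos)

lemma AAp_zero {p : ℕ} (hp : p.Prime) : AAp p 1 0 0 0 = 1 := by
  have hp0 : (p : ℂ) ≠ 0 := by exact_mod_cast hp.ne_zero
  have hp1 : (p : ℂ) - 1 ≠ 0 := by
    have : (p : ℂ) ≠ 1 := by exact_mod_cast hp.one_lt.ne'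
    exact sub_ne_zero.2 this
  have hinv : (p : ℂ) ^ (-1 : ℂ) = (p : ℂ)⁻¹ := by rw [Complex.cpow_neg_one]
  have h1 : 1 - (p : ℂ)⁻¹ ≠ 0 := by
    rw [← hinv]
    exact one_sub_ne hp (by norm_num)
  have hfp : fp p 1 0 0 = 0 := by
    unfold fp hL
    simp only [Pi.zero_apply, sub_zero, Finset.prod_const, Finset.card_univ, Fintype.card_fin,
      hinv]
    have e : (1 - (p : ℂ)⁻¹) ^ 3 / ((1 - (p : ℂ)⁻¹) * (1 - (p : ℂ)⁻¹)) = ((p : ℂ) - 1) / p := by
      rw [div_eq_div_iff (mul_ne_zero h1 h1) hp0]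
      have : ((p : ℂ) - 1) = p * (1 - (p : ℂ)⁻¹) := by field_simp
      rw [this]
      ring
    rw [e]
    field_simp
    simp
  unfold AAp
  rw [hfp]
  have e2 : ((-2 : ℂ) + 1 - 0) = -1 := by norm_num
  simp only [Pi.zero_apply, sub_zero, mul_zero, one_mul, Finset.prod_const, Finset.card_univ,
    Fintype.card_fin, e2, hinv, sub_self]
  rw [div_eq_one_iff_eq (pow_ne_zero 3 h1)]
  ring

end AALH

open AALH

/-- AAL. -/
theorem aal (h : AabStatement) : AalStatement := by
  refine ⟨?_, contOn h⟩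
  intro ε hε
  have h0 : ((1, 0, 0, 0) : Q) ∈ R := by
    refine ⟨by norm_num, fun i => by norm_num, by norm_num, by norm_num⟩
  have hc := contOn h _ h0
  have hA : AA 1 0 0 0 = 1 := by
    unfold AA
    have : (fun p : Nat.Primes => AAp p 1 0 0 0) = fun _ => 1 := by
      funext p
      exact AAp_zero p.2
    rw [this, tprod_one]
  rw [Metric.continuousWithinAt_iff] at hc
  obtain ⟨δ, hδ, hc⟩ := hc ε hε
  refine ⟨min (1 / 100) (δ / 2), by positivity, ?_⟩
  intro s v w a hs hv hw ha
  have hs1 := hs.trans (min_le_left _ _)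
  have hv1 := hv.trans (min_le_left _ _)
  have hw1 := hw.trans (min_le_left _ _)
  have hs2 := hs.trans (min_le_right _ _)
  have hv2 := hv.trans (min_le_right _ _)
  have hw2 := hw.trans (min_le_right _ _)
  have hmem : ((s, v, w, a) : Q) ∈ R :=
    ⟨hs1, fun i => (ha i).trans (min_le_left _ _), (Complex.abs_re_le_norm v).trans hv1,
      (Complex.abs_re_le_norm w).trans hw1⟩
  have hd : dist ((s, v, w, a) : Q) (1, 0, 0, 0) < δ := by
    have hda : dist a 0 ≤ δ / 2 := by
      rw [dist_pi_le_iff (by positivity)]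
      intro i
      rw [Pi.zero_apply, dist_zero_right]
      exact (ha i).trans (min_le_right _ _)
    have : dist ((s, v, w, a) : Q) (1, 0, 0, 0) ≤ δ / 2 := by
      rw [Prod.dist_eq, Prod.dist_eq, Prod.dist_eq]
      refine max_le ?_ (max_le ?_ (max_le ?_ hda))
      · rw [dist_eq_norm]; exact hs2
      · simp only [dist_zero_right]; exact hv2
      · simp only [dist_zero_right]; exact hw2
    linarith
  have h2 := hc hmem hd
  simp only at h2
  rw [hA, dist_eq_norm] at h2
  exact h2.le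

end Pool.Agent.Lib.MP_6bc78b_nt.MS.P3
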